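import Pool.Agent.X220.PD.Sieve

set_option autoImplicit false

/-! # Palindromes in terms of their digits -/

namespace Pool.Agent.X220.PD

open Finset
open Pool.Agent.Y816.PS (pal pal_digits pal_reverse pal_mid pal_div pal_eq av av_lt av_out ae ae_lt ae_out ae_top VE VE_surj
  sum_lt top_digit)

variable {G : Type} [AddCommGroup G] [DecidableEq G]

/-- the digital function of the right half -/
def half (b : ℕ) (g : ℕ → G) (N n : ℕ) : G := ∑ i ∈ range N, g (n / b ^ i % b)

/-- the contribution of the prescribed digits -/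
def outer (b : ℕ) (g : ℕ → G) (N L x : ℕ) : G := ∑ c ∈ Ico L N, g (x / b ^ (N + c + 1) % b)

/-- the palindromes with `2 N + 1` digits, the `N - L` leading digits of `x`, the middle digit `e` and the value `g₀` -/
def Pals (b N L x e : ℕ) (g : ℕ → G) (g₀ : G) : Finset ℕ :=
  (range (b ^ (2 * N + 1))).filter (fun n => (Nat.digits b n).reverse = Nat.digits b n ∧
    n / b ^ (N + L + 1) = x / b ^ (N + L + 1) ∧ n / b ^ N % b = e ∧ half b g N n = g₀)

lemma pal_dig {b N : ℕ} (hb : 2 ≤ b) {a : ℕ → ℕ} (ha : ∀ i, a i < b) (h0 : a N ≠ 0) {i : ℕ} (hi : i ≤ 2 * N) :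
    pal b N a / b ^ i % b = a (N - i + (i - N)) := by
  rw [← Nat.getD_digits _ _ hb, pal_digits hb ha h0, List.getD_eq_getElem _ _ (by simp; omega)]
  simp

lemma VE_ae (b N L x e : ℕ) (m : Fin L → Fin b × Fin 1) : VE b N L x e m = pal b N (ae b N L x e m) := rfl

omit [DecidableEq G] in
lemma half_VE {b N L x e : ℕ} (hb : 2 ≤ b) (hN : L < N) (h0 : b ^ (2 * N) ≤ x) (hx : x < b ^ (2 * N + 1)) (he : e < b)
    (g : ℕ → G) (m : Fin L → Fin b × Fin 1) :
    half b g N (VE b N L x e m) = ∑ c, g ((m c).1 : ℕ) + outer b g N L x := by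
  unfold half outer
  rw [VE_ae]
  have h1 : ∀ i ∈ range N, g (pal b N (ae b N L x e m) / b ^ i % b) = g (ae b N L x e m (N - i)) := by
    intro i hi
    rw [mem_range] at hi
    rw [pal_dig hb (ae_lt hb N L x he m) (ae_top hb (by omega) hx h0 m) (by omega)]
    rw [show N - i + (i - N) = N - i by omega]
  rw [sum_congr rfl h1, ← sum_range_reflect]
  have h2 : ∀ j ∈ range N, g (ae b N L x e m (N - (N - 1 - j))) = g (ae b N L x e m (j + 1)) := by
    intro j hj
    rw [mem_range] at hj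
    rw [show N - (N - 1 - j) = j + 1 by omega]
  rw [sum_congr rfl h2, ← sum_range_add_sum_Ico _ (show L ≤ N by omega)]
  congr 1
  · rw [Finset.sum_range]
    refine sum_congr rfl fun c _ => ?_
    congr 1
    unfold ae av
    rw [if_neg (by omega), if_neg (by omega), dif_pos (by simp)]
    have : ((m c).2 : ℕ) = 0 := by
      have := (m c).2.isLt
      omega
    show ((m ⟨(c : ℕ) + 1 - 1, _⟩).1 : ℕ) + ((m ⟨(c : ℕ) + 1 - 1, _⟩).2 : ℕ) = _
    have e1 : (⟨(c : ℕ) + 1 - 1, by simp⟩ : Fin L) = c := by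
      apply Fin.ext
      simp
    rw [e1, this, add_zero]
  · refine sum_congr rfl fun c hc => ?_
    rw [mem_Ico] at hc
    rw [ae_out m (by omega), show N + (c + 1) = N + c + 1 by ring]

lemma Pals_eq {b N L x e : ℕ} (hb : 2 ≤ b) (hN : L < N) (h0 : b ^ (2 * N) ≤ x) (hx : x < b ^ (2 * N + 1)) (he : e < b)
    (g : ℕ → G) (g₀ : G) : Pals b N L x e g g₀ = Om b N L x e g (g₀ - outer b g N L x) := by
  ext n
  unfold Pals Om
  rw [mem_filter, mem_range, mem_image]
  constructor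
  · rintro ⟨h1, h2, h3, h4, h5⟩
    have g5 : b ^ (2 * N) ≤ n := by
      have e1 : b ^ (N - L - 1) ≤ x / b ^ (N + L + 1) := by
        rw [Nat.le_div_iff_mul_le (by positivity), ← pow_add]
        rwa [show N - L - 1 + (N + L + 1) = 2 * N by omega]
      rw [← h3, Nat.le_div_iff_mul_le (by positivity), ← pow_add,
        show N - L - 1 + (N + L + 1) = 2 * N by omega] at e1
      exact e1
    have g6 := VE_surj hb g5 h1 h2 h3
    rw [h4] at g6
    refine ⟨_, ?_, g6.symm⟩
    rw [mem_filter]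
    refine ⟨mem_univ _, ?_⟩
    rw [g6, half_VE hb hN h0 hx he] at h5
    exact eq_sub_of_add_eq h5
  · rintro ⟨m, hm, rfl⟩
    rw [mem_filter] at hm
    refine ⟨?_, ?_, ?_, ?_, ?_⟩
    · rw [VE_ae]
      unfold pal
      exact sum_lt (fun i => ae_lt hb N L x he m _) _
    · rw [VE_ae]
      exact pal_reverse hb (ae_lt hb N L x he m) (ae_top hb (by omega) hx h0 m)
    · rw [VE_ae]
      exact pal_div hb (by omega) hx (ae_lt hb N L x he m) (fun j hj => ae_out m hj)
    · rw [VE_ae, pal_mid hb (ae_lt hb N L x he m) (ae_top hb (by omega) hx h0 m)]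
      simp [ae]
    · rw [half_VE hb hN h0 hx he, hm.2, sub_add_cancel]

/-- the last digit -/
lemma Pals_mod_b {b N L x e n : ℕ} (hb : 2 ≤ b) (hN : L < N) (h0 : b ^ (2 * N) ≤ x) (hx : x < b ^ (2 * N + 1)) (he : e < b)
    {g : ℕ → G} {g₀ : G} (hn : n ∈ Pals b N L x e g g₀) : n % b = x / b ^ (2 * N) := by
  rw [Pals_eq hb hN h0 hx he, Om, mem_image] at hn
  obtain ⟨m, -, rfl⟩ := hn
  have h1 := pal_dig hb (ae_lt hb N L x he m) (ae_top hb (by omega) hx h0 m) (i := 0) (by omega)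
  rw [pow_zero, Nat.div_one] at h1
  rw [VE_ae, h1, show N - 0 + (0 - N) = N by omega, ae_out m hN, top_digit hb hx]

/-- the parity in the odd bases -/
lemma Pals_mod_two {b N L x e n : ℕ} (hb : 2 ≤ b) (hN : L < N) (h0 : b ^ (2 * N) ≤ x) (hx : x < b ^ (2 * N + 1)) (he : e < b)
    {g : ℕ → G} {g₀ : G} (ho : Odd b) (hn : n ∈ Pals b N L x e g g₀) : n % 2 = e % 2 := by
  rw [Pals_eq hb hN h0 hx he, Om, mem_image] at hn
  obtain ⟨m, -, rfl⟩ := hn
  rw [VE_ae, pal_eq]
  have h1 : ae b N L x e m 0 = e := by simp [ae]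
  have h2 : 2 ∣ ∑ c ∈ range N, ae b N L x e m (c + 1) * (b ^ (N + c + 1) + b ^ (N - 1 - c)) := by
    apply dvd_sum
    intro c _
    apply Dvd.dvd.mul_left
    exact (ho.pow.add_odd ho.pow).two_dvd
  have h3 : (e * b ^ N) % 2 = e % 2 := by
    rw [Nat.mul_mod, Nat.odd_iff.1 (ho.pow (n := N))]
    simp
  rw [h1]
  omega

end Pool.Agent.X220.PD
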