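import Pool.Agent.X220.PD.Tw
import Pool.Agent.X55.Fam.Uni

set_option autoImplicit false

/-! # The sieve for palindromes with values of a digital function -/

namespace Pool.Agent.X220.PD

open Finset Filter Topology
open Pool.Agent.W89.PW (pv fr)
open Pool.Agent.H623R3.PBT8 (coprime_pos)
open Pool.Agent.Y816.PS (er er_nonneg VE VE_inj VE_eq aff_dvd n0)
open Pool.Agent.H373R2.T7
open Pool.Agent.X55.Fam (Adm VQ VQ_low pow_card_le)
open Pool.Agent.X55.Pal (JJ_le_self)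

variable {G : Type} [AddCommGroup G] [Fintype G] [DecidableEq G]

/-- the palindromes with a given value of the digital function of the free digits -/
def Om (b N L x e : ℕ) (g : ℕ → G) (g₁ : G) : Finset ℕ :=
  ((univ : Finset (Fin L → Fin b × Fin 1)).filter (fun m => ∑ c, g ((m c).1 : ℕ) = g₁)).image (VE b N L x e)

omit [Fintype G] in
lemma Om_class {b N L x : ℕ} (e : ℕ) (g : ℕ → G) (g₁ : G) (hb : 2 ≤ b) (hN : L + 1 ≤ N) (q h : ℕ) (hq : q.Coprime (2 * b)) :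
    ∃ r : ℕ, ((Om b N L x e g g₁).filter (fun n => n ≡ h [MOD q])).card =
      (((univ : Finset (Fin L → Fin b × Fin 1)).filter (fun m => ∑ c, g ((m c).1 : ℕ) = g₁)).filter
        (fun m => pv b b 1 L m ≡ r [MOD q])).card := by
  have hq0 : 0 < q := coprime_pos hq
  obtain ⟨r, hr⟩ := aff_dvd (N := N) (L := L) (n0 b N L x - b ^ N + e * b ^ N + h * (q - 1)) hq hq0
  refine ⟨r, ?_⟩
  unfold Om
  rw [filter_image, card_image_of_injective _ (VE_inj hb hN)]
  congr 1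
  apply filter_congr
  intro m _
  rw [← hr m]
  have e1 : n0 b N L x - b ^ N + e * b ^ N + h * (q - 1) + b ^ (N - L - 1) * Pool.Agent.Y816.PS.sg b L m =
      VE b N L x e m + h * (q - 1) := by
    rw [VE_eq x e hN]
    ring
  rw [e1]
  generalize VE b N L x e m = V
  obtain ⟨k, rfl⟩ : ∃ k, q = k + 1 := ⟨q - 1, by omega⟩
  rw [Nat.add_sub_cancel]
  have e2 : h + h * k ≡ 0 [MOD k + 1] := Nat.modEq_zero_iff_dvd.2 ⟨h, by ring⟩
  constructor
  · intro h4
    have h5 : V + h * k ≡ h + h * k [MOD k + 1] := Nat.ModEq.add_right _ h4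
    exact Nat.modEq_zero_iff_dvd.1 (h5.trans e2)
  · intro h4
    have h5 : V + h * k ≡ h + h * k [MOD k + 1] := (Nat.modEq_zero_iff_dvd.2 h4).trans e2.symm
    exact Nat.ModEq.add_right_cancel' _ h5

/-- the parameter -/
lemma exists_M {b : ℕ} (hb : 2 ≤ b) {ρ : ℝ} (h0 : 0 ≤ ρ) (h1 : ρ < 1) (c : ℕ) : ∃ M : ℕ, 5 ≤ M ∧
    ∀ A : ℕ, ∀ᶠ L : ℕ in atTop, ((b : ℝ) ^ ((2 / M : ℝ) * L)) ^ c * ρ ^ (L / 3) ≤ 1 / (L : ℝ) ^ A := by
  have hbR : (2 : ℝ) ≤ b := by exact_mod_cast hb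
  have hb0 : (0 : ℝ) < b := by linarith
  have hlb : 0 < Real.log b := Real.log_pos (by linarith)
  set θ : ℝ := max ρ (1 / 2) with hθ
  have hθ0 : 0 < θ := lt_of_lt_of_le (by norm_num) (le_max_right _ _)
  have hθ1 : θ < 1 := max_lt h1 (by norm_num)
  have hlθ : Real.log θ < 0 := Real.log_neg hθ0 hθ1
  obtain ⟨M₀, hM₀⟩ := exists_nat_gt (6 * c * Real.log b / (-Real.log θ))
  set M := max 5 M₀ with hM
  have hM5 : 5 ≤ M := le_max_left _ _
  have hMr : (0 : ℝ) < M := by exact_mod_cast (by omega : 0 < M)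
  have hM1 : 6 * c * Real.log b / (-Real.log θ) < M := lt_of_lt_of_le hM₀ (by exact_mod_cast le_max_right _ _)
  rw [div_lt_iff₀ (by linarith)] at hM1
  set κ : ℝ := -Real.log θ / 3 - 2 * c / M * Real.log b with hκ
  have hκ0 : 0 < κ := by
    have : 2 * c / M * Real.log b < -Real.log θ / 3 := by
      rw [div_mul_eq_mul_div, div_lt_div_iff₀ hMr (by norm_num)]
      linarith
    rw [hκ]
    linarith
  refine ⟨M, hM5, fun A => ?_⟩
  have hr : |Real.exp (-κ)| < 1 := by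
    rw [abs_of_pos (Real.exp_pos _), Real.exp_lt_one_iff]
    linarith
  have hlim := tendsto_pow_const_mul_const_pow_of_abs_lt_one A hr
  filter_upwards [hlim.eventually (gt_mem_nhds hθ0), eventually_ge_atTop 1] with L hL hL1
  have hLr : (1 : ℝ) ≤ L := by exact_mod_cast hL1
  have e1 : ((b : ℝ) ^ ((2 / M : ℝ) * L)) ^ c = Real.exp (2 * c / M * Real.log b * L) := by
    rw [Real.rpow_def_of_pos hb0, ← Real.exp_nat_mul]
    congr 1
    ring
  have e2 : ρ ^ (L / 3) ≤ Real.exp (Real.log θ * ((L : ℝ) / 3 - 1)) := by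
    calc ρ ^ (L / 3) ≤ θ ^ (L / 3) := pow_le_pow_left₀ h0 (le_max_left _ _) _
      _ = Real.exp (Real.log θ * ((L / 3 : ℕ) : ℝ)) := by
          rw [mul_comm, Real.exp_nat_mul, Real.exp_log hθ0]
      _ ≤ _ := by
          apply Real.exp_le_exp.2
          have h3 : (L : ℝ) / 3 - 1 ≤ ((L / 3 : ℕ) : ℝ) := by
            have : L ≤ 3 * (L / 3) + 3 := by omega
            have h4 : (L : ℝ) ≤ 3 * ((L / 3 : ℕ) : ℝ) + 3 := by exact_mod_cast this
            linarith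
          nlinarith
  have e3 : Real.exp (2 * c / M * Real.log b * L) * Real.exp (Real.log θ * ((L : ℝ) / 3 - 1)) =
      θ⁻¹ * Real.exp (-κ) ^ L := by
    rw [← Real.exp_add, ← Real.exp_nat_mul, ← Real.exp_log (inv_pos.2 hθ0), ← Real.exp_add, Real.log_inv]
    congr 1
    rw [hκ]
    ring
  rw [e1]
  calc Real.exp (2 * c / M * Real.log b * L) * ρ ^ (L / 3) ≤
      Real.exp (2 * c / M * Real.log b * L) * Real.exp (Real.log θ * ((L : ℝ) / 3 - 1)) := by gcongr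
    _ = θ⁻¹ * Real.exp (-κ) ^ L := e3
    _ ≤ 1 / (L : ℝ) ^ A := by
        rw [le_div_iff₀ (by positivity)]
        have h3 : (L : ℝ) ^ A * Real.exp (-κ) ^ L < θ := hL
        calc θ⁻¹ * Real.exp (-κ) ^ L * (L : ℝ) ^ A = θ⁻¹ * ((L : ℝ) ^ A * Real.exp (-κ) ^ L) := by ring
          _ ≤ θ⁻¹ * θ := by gcongr
          _ = 1 := inv_mul_cancel₀ hθ0.ne'

open Classical in
/-- **The sieve** -/
theorem master {b : ℕ} (hb : 2 ≤ b) (g : ℕ → G) (hg : Spr b g) (c : ℕ) (hc : 1 ≤ c) (ε : ℝ) (hε : 0 < ε) :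
    ∃ K L₀ : ℕ, 1 ≤ K ∧ ∀ L : ℕ, L₀ ≤ L → ∀ N x e : ℕ, L < N → ∀ g₁ : G, ∀ y : ℕ, 3 ≤ y → y ^ K ≤ b ^ L →
    ∀ Q : ℕ → ℕ → Prop, Adm Q c → (∀ p, p ∣ 2 * b → ∀ n, ¬ Q p n) →
    |(((Om b N L x e g g₁).filter (fun n => ∀ p ∈ pz y, ¬ Q p n)).card : ℝ) -
      (b : ℝ) ^ L / Fintype.card G * VQ Q y| ≤ ε * ((b : ℝ) ^ L / Fintype.card G * VQ Q y) := by
  obtain ⟨ρ, hρ0, hρ1, hcl⟩ := tw_class hb g hg
  obtain ⟨K1, K0, hK1, hK0, hgen⟩ := Pool.Agent.X55.Pal.gen c hc (ε / 2) (by positivity)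
  obtain ⟨c1, hc1, hV⟩ := VQ_low c hc
  obtain ⟨M, hM5, hM⟩ := exists_M hb hρ0 hρ1 (c + 1)
  have hbR : (2 : ℝ) ≤ b := by exact_mod_cast hb
  have hb0 : (0 : ℝ) < b := by linarith
  have hG : (0 : ℝ) < Fintype.card G := by exact_mod_cast Fintype.card_pos
  have hMr : (5 : ℝ) ≤ M := by exact_mod_cast hM5
  have hMr0 : (0 : ℝ) < M := by linarith
  have ev1 : ∀ᶠ L : ℕ in atTop, (K0 : ℝ) ≤ (b : ℝ) ^ ((1 / M : ℝ) * L) := by
    have h1 : Tendsto (fun L : ℕ => (1 / M : ℝ) * (L : ℝ)) atTop atTop :=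
      tendsto_natCast_atTop_atTop.const_mul_atTop (by positivity)
    have h2 : Tendsto (fun x : ℝ => (b : ℝ) ^ x) atTop atTop :=
      tendsto_rpow_atTop_of_base_gt_one b (by linarith)
    exact (h2.comp h1).eventually_ge_atTop _
  set Z : ℝ := 4 * K0 * (b + 3) * Fintype.card G * (b : ℝ) ^ c / (ε * c1) with hZ
  have ev2 : ∀ᶠ L : ℕ in atTop, Z ≤ L := tendsto_natCast_atTop_atTop.eventually_ge_atTop _
  obtain ⟨L₀, hL₀⟩ := eventually_atTop.1 ((er_om hb c hc (c + 3)).and ((hM (c + 3)).and (ev1.and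
    (ev2.and (eventually_ge_atTop 1)))))
  refine ⟨K1 * M, L₀, by nlinarith, ?_⟩
  intro L hL N x e hN g₁ y hy hyK Q hQ hQb
  obtain ⟨h1, h2, h3, h4, h5⟩ := hL₀ L hL
  have hLr : (1 : ℝ) ≤ L := by exact_mod_cast h5
  have hL0 : (0 : ℝ) < L := by linarith
  set D := K0 * y ^ K1 with hD
  have hyM : ((y : ℝ) ^ K1) ≤ (b : ℝ) ^ ((1 / M : ℝ) * L) := by
    have h6 : ((y : ℝ) ^ K1) ^ M ≤ ((b : ℝ) ^ ((1 / M : ℝ) * L)) ^ M := by
      have h7 : ((b : ℝ) ^ ((1 / M : ℝ) * L)) ^ M = (b : ℝ) ^ L := by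
        rw [← Real.rpow_natCast, ← Real.rpow_mul hb0.le, ← Real.rpow_natCast]
        congr 1
        field_simp
      rw [h7, ← pow_mul]
      exact_mod_cast hyK
    exact le_of_pow_le_pow_left₀ (by omega) (by positivity) h6
  have hDb : (D : ℝ) ≤ (b : ℝ) ^ ((2 / M : ℝ) * L) := by
    rw [hD]
    push_cast
    calc (K0 : ℝ) * (y : ℝ) ^ K1 ≤ (b : ℝ) ^ ((1 / M : ℝ) * L) * (b : ℝ) ^ ((1 / M : ℝ) * L) :=
          mul_le_mul h3 hyM (by positivity) (by positivity)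
      _ = _ := by
          rw [← Real.rpow_add hb0]
          congr 1
          ring
  have hD49 : D ≤ ⌊(b : ℝ) ^ ((49 / 100 : ℝ) * L)⌋₊ := by
    apply Nat.le_floor
    refine hDb.trans (Real.rpow_le_rpow_of_exponent_le (by linarith) ?_)
    apply mul_le_mul_of_nonneg_right _ hL0.le
    rw [div_le_div_iff₀ hMr0 (by norm_num)]
    linarith
  have hER : ∀ d, 0 ≤ er b L d + (b : ℝ) ^ L * ρ ^ (L / 3) := fun d =>
    add_nonneg (er_nonneg b L d) (by positivity)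
  have key := hgen (2 * b) y (by omega) (Om b N L x e g g₁) ((b : ℝ) ^ L / Fintype.card G)
    (fun d => er b L d + (b : ℝ) ^ L * ρ ^ (L / 3)) (by positivity) hER
    (fun d _ hd2 _ r => by
      obtain ⟨r', hr'⟩ := Om_class (x := x) e g g₁ hb (show L + 1 ≤ N by omega) d r hd2
      rw [hr']
      exact hcl L d r' hd2 g₁) Q hQ.per
  have hf1 : ∏ p ∈ (pz y).filter (fun p => ¬ p ∣ 2 * b), (1 - (nuB Q p : ℝ) / p) = VQ Q y := by
    unfold VQ
    rw [prod_filter]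
    apply prod_congr rfl
    intro p hp
    by_cases hpb : p ∣ 2 * b
    · have : nuB Q p = 0 := by
        unfold nuB
        rw [card_eq_zero, filter_eq_empty_iff]
        intro n _
        exact hQb p hpb n
      rw [if_neg (not_not.2 hpb), this]
      simp
    · rw [if_pos hpb]
  have hf2 : (Om b N L x e g g₁).filter (fun n => ∀ p ∈ pz y, ¬ p ∣ 2 * b → ¬ Q p n) =
      (Om b N L x e g g₁).filter (fun n => ∀ p ∈ pz y, ¬ Q p n) := by
    apply filter_congr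
    intro n _
    refine forall_congr' fun p => forall_congr' fun hp => ?_
    constructor
    · intro h hq
      by_cases hpb : p ∣ 2 * b
      · exact hQb p hpb n hq
      · exact h hpb hq
    · intro h _
      exact h
  rw [hf1, hf2] at key
  have hlogy : 0 < Real.log y := Real.log_pos (by exact_mod_cast (by omega : 1 < y))
  have hV1 := hV Q hQ y hy
  have hVpos : 0 < VQ Q y := lt_of_lt_of_le (by positivity) hV1
  have hyb : y ≤ b ^ L := (Nat.le_self_pow (by positivity) y).trans hyK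
  have hly : Real.log y ≤ L * b := by
    have h6 : Real.log y ≤ Real.log ((b : ℝ) ^ L) := Real.log_le_log (by positivity) (by exact_mod_cast hyb)
    rw [Real.log_pow] at h6
    have h7 : Real.log b ≤ b := (Real.log_le_sub_one_of_pos hb0).trans (by linarith)
    exact h6.trans (mul_le_mul_of_nonneg_left h7 hL0.le)
  have hJJ : (JJ y : ℝ) + 2 ≤ (b + 3) * L := by
    have h6 : Nat.log 2 y ≤ b * L := by
      have h7 : 2 ^ Nat.log 2 y ≤ 2 ^ (b * L) := by
        calc 2 ^ Nat.log 2 y ≤ y := Nat.pow_log_le_self 2 (by omega)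
          _ ≤ b ^ L := hyb
          _ ≤ (2 ^ b) ^ L := Nat.pow_le_pow_left Nat.lt_two_pow_self.le _
          _ = _ := by rw [← pow_mul]
      exact (Nat.pow_le_pow_iff_right (by norm_num)).1 h7
    have h7 := JJ_le_self y
    have h8 : JJ y + 2 ≤ (b + 3) * L := by nlinarith
    exact_mod_cast h8
  have hsum : ∑ d ∈ (Icc 1 D).filter (fun d => d.Coprime (2 * b)),
      (c : ℝ) ^ d.primeFactors.card * (er b L d + (b : ℝ) ^ L * ρ ^ (L / 3)) ≤ 2 * ((b : ℝ) ^ L / (L : ℝ) ^ (c + 3)) := by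
    simp only [mul_add]
    rw [sum_add_distrib]
    have h6 : ∑ d ∈ (Icc 1 D).filter (fun d => d.Coprime (2 * b)), (c : ℝ) ^ d.primeFactors.card * er b L d ≤
        (b : ℝ) ^ L / (L : ℝ) ^ (c + 3) := by
      refine le_trans (sum_le_sum_of_subset_of_nonneg ?_ fun d _ _ => mul_nonneg (by positivity) (er_nonneg b L d)) h1
      intro d hd
      rw [mem_filter, mem_Icc] at hd ⊢
      exact ⟨⟨hd.1.1, hd.1.2.trans hD49⟩, hd.2⟩
    have h7 : ∑ d ∈ (Icc 1 D).filter (fun d => d.Coprime (2 * b)),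
        (c : ℝ) ^ d.primeFactors.card * ((b : ℝ) ^ L * ρ ^ (L / 3)) ≤ (b : ℝ) ^ L / (L : ℝ) ^ (c + 3) := by
      rw [← sum_mul]
      have h8 : ∑ d ∈ (Icc 1 D).filter (fun d => d.Coprime (2 * b)), (c : ℝ) ^ d.primeFactors.card ≤ (D : ℝ) ^ (c + 1) := by
        calc ∑ d ∈ (Icc 1 D).filter (fun d => d.Coprime (2 * b)), (c : ℝ) ^ d.primeFactors.card ≤
            ∑ d ∈ Icc 1 D, (D : ℝ) ^ c := by
              refine (sum_le_sum_of_subset_of_nonneg (filter_subset _ _) fun _ _ _ => by positivity).trans ?_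
              refine sum_le_sum fun d hd => ?_
              rw [mem_Icc] at hd
              refine (pow_card_le c d (by omega)).trans ?_
              gcongr
              exact hd.2
          _ = (D : ℝ) ^ (c + 1) := by
              rw [sum_const, Nat.card_Icc, Nat.add_sub_cancel, nsmul_eq_mul, pow_succ]
              ring
      calc (∑ d ∈ (Icc 1 D).filter (fun d => d.Coprime (2 * b)), (c : ℝ) ^ d.primeFactors.card) * ((b : ℝ) ^ L * ρ ^ (L / 3))
          ≤ ((b : ℝ) ^ ((2 / M : ℝ) * L)) ^ (c + 1) * ((b : ℝ) ^ L * ρ ^ (L / 3)) := by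
            apply mul_le_mul_of_nonneg_right _ (by positivity)
            exact h8.trans (pow_le_pow_left₀ (Nat.cast_nonneg _) hDb _)
        _ = (b : ℝ) ^ L * (((b : ℝ) ^ ((2 / M : ℝ) * L)) ^ (c + 1) * ρ ^ (L / 3)) := by ring
        _ ≤ (b : ℝ) ^ L * (1 / (L : ℝ) ^ (c + 3)) := by gcongr
        _ = _ := by ring
    linarith
  have herr : ((JJ y : ℝ) + 2) * (K0 * ∑ d ∈ (Icc 1 D).filter (fun d => d.Coprime (2 * b)),
      (c : ℝ) ^ d.primeFactors.card * (er b L d + (b : ℝ) ^ L * ρ ^ (L / 3))) ≤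
      ε / 2 * ((b : ℝ) ^ L / Fintype.card G * VQ Q y) := by
    have hS0 : 0 ≤ ∑ d ∈ (Icc 1 D).filter (fun d => d.Coprime (2 * b)),
        (c : ℝ) ^ d.primeFactors.card * (er b L d + (b : ℝ) ^ L * ρ ^ (L / 3)) :=
      sum_nonneg fun d _ => mul_nonneg (by positivity) (hER d)
    have e1 : ((JJ y : ℝ) + 2) * (K0 * ∑ d ∈ (Icc 1 D).filter (fun d => d.Coprime (2 * b)),
        (c : ℝ) ^ d.primeFactors.card * (er b L d + (b : ℝ) ^ L * ρ ^ (L / 3))) ≤
        ((b + 3) * L) * (K0 * (2 * ((b : ℝ) ^ L / (L : ℝ) ^ (c + 3)))) := by gcongr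
    refine e1.trans ?_
    have e2 : c1 / (L * b) ^ c ≤ VQ Q y := by
      refine le_trans ?_ hV1
      gcongr
    have e3 : ε / 2 * ((b : ℝ) ^ L / Fintype.card G * (c1 / (L * b) ^ c)) ≤
        ε / 2 * ((b : ℝ) ^ L / Fintype.card G * VQ Q y) := by gcongr
    refine le_trans ?_ e3
    have e4 : Z ≤ (L : ℝ) ^ 2 := h4.trans (by nlinarith)
    rw [hZ, div_le_iff₀ (by positivity)] at e4
    have e5 : ((b : ℝ) + 3) * L * (K0 * (2 * ((b : ℝ) ^ L / (L : ℝ) ^ (c + 3)))) =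
        (b : ℝ) ^ L / (2 * (L : ℝ) ^ (c + 2) * Fintype.card G * (b : ℝ) ^ c) *
          (4 * K0 * (b + 3) * Fintype.card G * (b : ℝ) ^ c) := by
      rw [show c + 3 = (c + 2) + 1 by ring, pow_succ (L : ℝ) (c + 2)]
      field_simp
      ring
    have e6 : ε / 2 * ((b : ℝ) ^ L / Fintype.card G * (c1 / (L * b) ^ c)) =
        (b : ℝ) ^ L / (2 * (L : ℝ) ^ (c + 2) * Fintype.card G * (b : ℝ) ^ c) * ((L : ℝ) ^ 2 * (ε * c1)) := by
      rw [mul_pow, pow_add]
      field_simp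
    rw [e5, e6]
    exact mul_le_mul_of_nonneg_left e4 (by positivity)
  have key' : |(((Om b N L x e g g₁).filter (fun n => ∀ p ∈ pz y, ¬ Q p n)).card : ℝ) -
      (b : ℝ) ^ L / Fintype.card G * VQ Q y| ≤
      ε / 2 * ((b : ℝ) ^ L / Fintype.card G * VQ Q y) + ((JJ y : ℝ) + 2) * (K0 * ∑ d ∈ (Icc 1 D).filter (fun d => d.Coprime (2 * b)),
        (c : ℝ) ^ d.primeFactors.card * (er b L d + (b : ℝ) ^ L * ρ ^ (L / 3))) := by
    convert key
  linarith

end Pool.Agent.X220.PD
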