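import Pool.Agent.X220.PD.Dig
import Pool.Agent.X55.Fam.Main

set_option autoImplicit false

/-! # Systems of polynomials at palindromes -/

namespace Pool.Agent.X220.PD

open Finset Filter Topology Polynomial
open Pool.Agent.H373R2.T7
open Pool.Agent.X55.Fam (Sys QQ cc perB nu_lt VV VV_bounds Adm VQ size roots_card dvd_mod VQ_nonneg)

variable {G : Type} [AddCommGroup G] [Fintype G] [DecidableEq G] {k : ℕ} {f : Fin k → ℤ[X]}

/-- the removed classes -/
def Qb (b : ℕ) (f : Fin k → ℤ[X]) (p n : ℕ) : Prop := ¬ p ∣ 2 * b ∧ QQ f p n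

lemma nu_Qb (b : ℕ) (f : Fin k → ℤ[X]) (p : ℕ) : nuB (Qb b f) p = if p ∣ 2 * b then 0 else nuB (QQ f) p := by
  classical
  unfold nuB
  split_ifs with h
  · rw [card_eq_zero, filter_eq_empty_iff]
    intro n _ hn
    exact hn.1 h
  · congr 1
    ext n
    rw [mem_filter, mem_filter]
    exact and_congr_right fun _ => ⟨fun hn => hn.2, fun hn => ⟨h, hn⟩⟩

lemma adm_Qb (b : ℕ) (h : Sys k f) : Adm (Qb b f) (cc f) := by
  refine ⟨⟨fun p n => ?_, fun p hp => ?_⟩, fun p hp => ?_⟩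
  · unfold Qb
    rw [(perB h).per p n]
  · rw [nu_Qb]
    split_ifs
    · exact Nat.zero_le _
    · exact (perB h).few p hp
  · rw [nu_Qb]
    split_ifs
    · exact hp.pos
    · exact nu_lt h p hp

/-- comparison of the products -/
lemma VQ_Qb {b : ℕ} (hb : 2 ≤ b) (h : Sys k f) : ∃ c1 C1 : ℝ, 0 < c1 ∧ 0 < C1 ∧ ∀ y : ℕ, 3 ≤ y →
    c1 / Real.log y ^ k ≤ VQ (Qb b f) y ∧ VQ (Qb b f) y ≤ C1 / Real.log y ^ k := by
  classical
  obtain ⟨c1, C1, hc1, hC1, hV⟩ := VV_bounds h
  have hbR : (2 : ℝ) ≤ b := by exact_mod_cast hb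
  set κ : ℝ := (1 / (2 * b : ℝ)) ^ (2 * b) with hκ
  have hκ0 : 0 < κ := by positivity
  refine ⟨c1, C1 / κ, hc1, by positivity, fun y hy => ?_⟩
  obtain ⟨h1, h2⟩ := hV y hy
  have hfac : ∀ p ∈ pz y, 0 < 1 - (nuB (QQ f) p : ℝ) / p ∧ 1 - (nuB (QQ f) p : ℝ) / p ≤ 1 ∧
      1 / (p : ℝ) ≤ 1 - (nuB (QQ f) p : ℝ) / p := by
    intro p hp
    rw [mem_pz] at hp
    have hp0 : (0 : ℝ) < p := by exact_mod_cast hp.2.pos
    have h3 : (nuB (QQ f) p : ℝ) + 1 ≤ p := by exact_mod_cast nu_lt h p hp.2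
    have h4 : 1 / (p : ℝ) ≤ 1 - (nuB (QQ f) p : ℝ) / p := by
      rw [le_sub_iff_add_le, ← add_div, div_le_one hp0]
      linarith
    have h5 : 0 < 1 / (p : ℝ) := by positivity
    refine ⟨by linarith, ?_, h4⟩
    have : 0 ≤ (nuB (QQ f) p : ℝ) / p := by positivity
    linarith
  have hsplit : VV f y = VQ (Qb b f) y * ∏ p ∈ (pz y).filter (fun p => p ∣ 2 * b), (1 - (nuB (QQ f) p : ℝ) / p) := by
    unfold VV VQ
    rw [prod_filter, ← prod_mul_distrib]
    apply prod_congr rfl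
    intro p _
    rw [nu_Qb]
    split_ifs <;> simp
  have hP1 : ∏ p ∈ (pz y).filter (fun p => p ∣ 2 * b), (1 - (nuB (QQ f) p : ℝ) / p) ≤ 1 := by
    apply prod_le_one
    · intro p hp
      exact (hfac p (mem_filter.1 hp).1).1.le
    · intro p hp
      exact (hfac p (mem_filter.1 hp).1).2.1
  have hP2 : κ ≤ ∏ p ∈ (pz y).filter (fun p => p ∣ 2 * b), (1 - (nuB (QQ f) p : ℝ) / p) := by
    have hcard : ((pz y).filter (fun p => p ∣ 2 * b)).card ≤ 2 * b := by
      have : (pz y).filter (fun p => p ∣ 2 * b) ⊆ Icc 1 (2 * b) := by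
        intro p hp
        rw [mem_filter, mem_pz] at hp
        rw [mem_Icc]
        exact ⟨hp.1.2.one_le, Nat.le_of_dvd (by omega) hp.2⟩
      refine (card_le_card this).trans ?_
      rw [Nat.card_Icc]
      omega
    calc κ ≤ (1 / (2 * b : ℝ)) ^ ((pz y).filter (fun p => p ∣ 2 * b)).card := by
          rw [hκ]
          apply pow_le_pow_of_le_one (by positivity) _ hcard
          rw [div_le_one (by positivity)]
          linarith
      _ = ∏ p ∈ (pz y).filter (fun p => p ∣ 2 * b), (1 / (2 * b : ℝ)) := by rw [prod_const]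
      _ ≤ _ := by
          apply prod_le_prod (fun _ _ => by positivity)
          intro p hp
          rw [mem_filter] at hp
          refine le_trans ?_ (hfac p hp.1).2.2
          have hp0 : (0 : ℝ) < p := by exact_mod_cast (mem_pz.1 hp.1).2.pos
          apply div_le_div_of_nonneg_left (by norm_num) hp0
          have := Nat.le_of_dvd (by omega) hp.2
          exact_mod_cast this
  have hVn : 0 ≤ VQ (Qb b f) y := VQ_nonneg _ _
  rw [hsplit] at h1 h2
  constructor
  · exact h1.trans (mul_le_of_le_one_right hVn hP1)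
  · rw [div_div, mul_comm, ← div_div, le_div_iff₀ hκ0]
    exact (mul_le_mul_of_nonneg_left hP2 hVn).trans h2

/-- the local conditions at the prime divisors of `2 b` -/
def Loc (b N x e : ℕ) (f : Fin k → ℤ[X]) : Prop :=
  (∀ p : ℕ, p.Prime → p ∣ b → ∀ i, ¬ (p : ℤ) ∣ (f i).eval ((x / b ^ (2 * N) : ℕ) : ℤ)) ∧
  (¬ 2 ∣ b → ∀ i, ¬ ((2 : ℕ) : ℤ) ∣ (f i).eval (e : ℤ))

omit [Fintype G] in
lemma loc_iff {b N L x e n : ℕ} (hb : 2 ≤ b) (hN : L < N) (h0 : b ^ (2 * N) ≤ x) (hx : x < b ^ (2 * N + 1)) (he : e < b)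
    {g : ℕ → G} {g₀ : G} (hl : Loc b N x e f) (hn : n ∈ Pals b N L x e g g₀) (y : ℕ) :
    (∀ p ∈ pz y, ¬ Qb b f p n) ↔ ∀ q : ℕ, q.Prime → q ≤ y → ∀ i, ¬ (q : ℤ) ∣ (f i).eval (n : ℤ) := by
  constructor
  · intro h q hq hqy i hd
    by_cases hqb : q ∣ 2 * b
    · by_cases hqb' : q ∣ b
      · apply hl.1 q hq hqb' i
        rw [← Pals_mod_b hb hN h0 hx he hn]
        rw [dvd_mod] at hd ⊢
        rwa [Nat.mod_mod_of_dvd _ hqb']
      · have h2 : q = 2 := by
          rcases (Nat.Prime.dvd_mul hq).1 hqb with h3 | h3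
          · exact (Nat.prime_dvd_prime_iff_eq hq Nat.prime_two).1 h3
          · exact absurd h3 hqb'
        subst h2
        apply hl.2 hqb' i
        have ho : Odd b := by
          rw [← Nat.not_even_iff_odd, even_iff_two_dvd]
          exact hqb'
        rw [dvd_mod] at hd ⊢
        rwa [← Pals_mod_two hb hN h0 hx he ho hn]
    · exact h q (mem_pz.2 ⟨hqy, hq⟩) ⟨hqb, i, hd⟩
  · rintro h p hp ⟨-, i, hi⟩
    rw [mem_pz] at hp
    exact h p hp.2 hp.1 i hi

open Classical in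
/-- **the asymptotic formula** -/
theorem sys_asym {b : ℕ} (hb : 2 ≤ b) (g : ℕ → G) (hg : Spr b g) (h : Sys k f) (ε : ℝ) (hε : 0 < ε) :
    ∃ K L₀ : ℕ, 1 ≤ K ∧ ∀ L : ℕ, L₀ ≤ L → ∀ N x e : ℕ, L < N → b ^ (2 * N) ≤ x → x < b ^ (2 * N + 1) → e < b →
    Loc b N x e f → ∀ g₀ : G, ∀ y : ℕ, 3 ≤ y → y ^ K ≤ b ^ L →
    |(((Pals b N L x e g g₀).filter (fun n : ℕ => ∀ q : ℕ, q.Prime → q ≤ y → ∀ i, ¬ (q : ℤ) ∣ (f i).eval (n : ℤ))).card : ℝ) -
      (b : ℝ) ^ L / Fintype.card G * VQ (Qb b f) y| ≤ ε * ((b : ℝ) ^ L / Fintype.card G * VQ (Qb b f) y) := by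
  obtain ⟨K, L₀, hK, hm⟩ := master hb g hg (cc f) (by unfold cc; omega) ε hε
  refine ⟨K, L₀, hK, fun L hL N x e hN h0 hx he hl g₀ y hy hyK => ?_⟩
  have key := hm L hL N x e hN (g₀ - outer b g N L x) y hy hyK (Qb b f) (adm_Qb b h) (fun p hp n hq => hq.1 hp)
  rw [← Pals_eq hb hN h0 hx he] at key
  have h1 : (Pals b N L x e g g₀).filter (fun n : ℕ => ∀ p ∈ pz y, ¬ Qb b f p n) =
      (Pals b N L x e g g₀).filter (fun n : ℕ => ∀ q : ℕ, q.Prime → q ≤ y → ∀ i, ¬ (q : ℤ) ∣ (f i).eval (n : ℤ)) :=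
    filter_congr fun n hn => loc_iff hb hN h0 hx he hl hn y
  rw [h1] at key
  exact key

open Classical in
/-- **the bounds** -/
theorem sys_bounds {b : ℕ} (hb : 2 ≤ b) (g : ℕ → G) (hg : Spr b g) (h : Sys k f) :
    ∃ (r K L₀ : ℕ) (c C : ℝ), 1 ≤ K ∧ 0 < c ∧ 0 < C ∧ ∀ L : ℕ, L₀ ≤ L → ∀ N x e : ℕ, L < N → b ^ (2 * N) ≤ x →
    x < b ^ (2 * N + 1) → e < b → ∀ g₀ : G,
    (Loc b N x e f → c * (b : ℝ) ^ L / (L : ℝ) ^ k ≤ (((Pals b N L x e g g₀).filter (fun n : ℕ => ∀ i,
      ((f i).eval (n : ℤ)).natAbs ≠ 0 ∧ ((f i).eval (n : ℤ)).natAbs.primeFactorsList.length * L ≤ r * N ∧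
      ∀ p : ℕ, p.Prime → p ∣ ((f i).eval (n : ℤ)).natAbs → b ^ L < p ^ K)).card : ℝ)) ∧
    (((Pals b N L x e g g₀).filter (fun n : ℕ => ∀ i, ((f i).eval (n : ℤ)).natAbs.Prime)).card : ℝ) ≤
      C * (b : ℝ) ^ L / (L : ℝ) ^ k := by
  obtain ⟨K1, L1, hK1, hasy⟩ := master hb g hg (cc f) (by unfold cc; omega) (1 / 2) (by norm_num)
  obtain ⟨c1, C1, hc1, hC1, hV⟩ := VQ_Qb hb h
  have hbR : (2 : ℝ) ≤ b := by exact_mod_cast hb
  have hb0 : (0 : ℝ) < b := by linarith
  have hlb : 0 < Real.log b := Real.log_pos (by linarith)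
  have hG : (0 : ℝ) < Fintype.card G := by exact_mod_cast Fintype.card_pos
  have hG1 : (1 : ℝ) ≤ Fintype.card G := by exact_mod_cast Fintype.card_pos
  have hsz := fun i => size (f i)
  choose L' D hL' hLD using hsz
  set K := max K1 2 with hK
  have hK2 : 2 ≤ K := le_max_right _ _
  have hKK1 : K1 ≤ K := le_max_left _ _
  set DD := ∑ i, D i with hDD
  set LL := ∏ i, L' i with hLL
  have hLL1 : ∀ i, L' i ≤ LL := fun i => Nat.le_of_dvd (prod_pos fun j _ => hL' j) (dvd_prod_of_mem _ (mem_univ i))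
  have hDD1 : ∀ i, D i ≤ DD := fun i => single_le_sum (f := fun i => D i) (fun _ _ => Nat.zero_le _) (mem_univ i)
  set ee : ℝ := ∑ i, ((f i).natDegree : ℝ) with hee
  have hee0 : 0 ≤ ee := sum_nonneg fun _ _ => Nat.cast_nonneg _
  have hev : ∀ᶠ X : ℝ in atTop, (6 * ee + 1) * Real.log X ^ k ≤ X ^ (1 / 2 : ℝ) := by
    have h1 := (isLittleO_log_rpow_atTop (show (0 : ℝ) < 1 / (4 * (k + 1)) by positivity)).def
      (show (0 : ℝ) < 1 by norm_num)
    filter_upwards [h1, eventually_ge_atTop (1 : ℝ),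
      (tendsto_rpow_atTop (show (0 : ℝ) < 1 / 4 by norm_num)).eventually_ge_atTop (6 * ee + 1)] with X hX hX1 hX2
    rw [Real.norm_eq_abs, abs_of_nonneg (Real.log_nonneg hX1), Real.norm_eq_abs,
      abs_of_nonneg (Real.rpow_nonneg (by linarith) _), one_mul] at hX
    have h2 : Real.log X ^ k ≤ X ^ (1 / 4 : ℝ) := by
      calc Real.log X ^ k ≤ (X ^ (1 / (4 * (k + 1)) : ℝ)) ^ k := by
            apply pow_le_pow_left₀ (Real.log_nonneg hX1) hX
        _ = X ^ (1 / (4 * (k + 1)) * k : ℝ) := by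
            rw [← Real.rpow_natCast, ← Real.rpow_mul (by linarith)]
        _ ≤ X ^ (1 / 4 : ℝ) := by
            apply Real.rpow_le_rpow_of_exponent_le hX1
            rw [div_mul_eq_mul_div, one_mul, div_le_div_iff₀ (by positivity) (by positivity)]
            nlinarith
    calc (6 * ee + 1) * Real.log X ^ k ≤ X ^ (1 / 4 : ℝ) * X ^ (1 / 4 : ℝ) :=
          mul_le_mul hX2 h2 (pow_nonneg (Real.log_nonneg hX1) _) (Real.rpow_nonneg (by linarith) _)
      _ = X ^ (1 / 2 : ℝ) := by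
          rw [← Real.rpow_add (by linarith)]
          norm_num
  have htend : Tendsto (fun L : ℕ => ((b ^ L : ℕ) : ℝ)) atTop atTop := by
    simp only [Nat.cast_pow]
    exact tendsto_pow_atTop_atTop_of_one_lt (by linarith)
  have htend' : Tendsto (fun L : ℕ => b ^ L) atTop atTop := tendsto_natCast_atTop_iff.1 htend
  obtain ⟨L2, hL2⟩ := eventually_atTop.1 ((htend.eventually hev).and ((htend'.eventually_ge_atTop (max LL (3 ^ K))).and
    (eventually_ge_atTop (max L1 1))))
  refine ⟨2 * K * (1 + 3 * DD), K, L2, c1 / 2 / Fintype.card G / Real.log b ^ k,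
    (2 * (C1 * (2 * K) ^ k) + 1) / Real.log b ^ k, by omega, by positivity, by positivity, ?_⟩
  intro L hL N x e hN h0 hx he g₀
  obtain ⟨hE1, hE2, hE3⟩ := hL2 L hL
  have hLL1' : L1 ≤ L := (le_max_left _ _).trans hE3
  have hL1 : 1 ≤ L := (le_max_right _ _).trans hE3
  have hLr : (1 : ℝ) ≤ L := by exact_mod_cast hL1
  set T := b ^ L with hT
  have hTL : LL ≤ T := (le_max_left _ _).trans hE2
  have hT3 : 3 ^ K ≤ T := (le_max_right _ _).trans hE2
  have h3T : 3 ≤ T := (Nat.le_self_pow (by omega) 3).trans hT3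
  have hTr : (3 : ℝ) ≤ T := by exact_mod_cast h3T
  have hlT : Real.log T = L * Real.log b := by
    rw [hT]
    push_cast
    rw [Real.log_pow]
  -- the parameter y
  set y := Nat.findGreatest (fun y => y ^ K ≤ T) T with hy
  have hyK : y ^ K ≤ T := by
    have := Nat.findGreatest_spec (P := fun y => y ^ K ≤ T) (n := T) h3T hT3
    exact this
  have hy3 : 3 ≤ y := Nat.le_findGreatest h3T hT3
  have hyX : y ≤ T := Nat.findGreatest_le T
  have hy1 : T < (y + 1) ^ K := by
    by_contra hcon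
    push Not at hcon
    have h1 : y + 1 ≤ T := (Nat.le_self_pow (by omega) _).trans hcon
    have h2 : y + 1 ≤ y := Nat.le_findGreatest h1 hcon
    omega
  have hy2 : T < y ^ (2 * K) := by
    calc T < (y + 1) ^ K := hy1
      _ ≤ (y ^ 2) ^ K := Nat.pow_le_pow_left (by nlinarith) _
      _ = y ^ (2 * K) := by rw [← pow_mul]
  have hlogy : 0 < Real.log y := Real.log_pos (by exact_mod_cast (by omega : 1 < y))
  have hlyX : Real.log y ≤ Real.log T := Real.log_le_log (by positivity) (by exact_mod_cast hyX)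
  have hlX : 0 < Real.log T := lt_of_lt_of_le hlogy hlyX
  have hlXy : Real.log T ≤ 2 * K * Real.log y := by
    have h1 : Real.log T ≤ Real.log ((y : ℝ) ^ (2 * K)) :=
      Real.log_le_log (by linarith) (by exact_mod_cast hy2.le)
    rw [Real.log_pow] at h1
    push_cast at h1
    exact h1
  have hK1y : y ^ K1 ≤ T := (Nat.pow_le_pow_right (by omega) hKK1).trans hyK
  have key := hasy L hLL1' N x e hN (g₀ - outer b g N L x) y hy3 hK1y (Qb b f) (adm_Qb b h) (fun p hp n hq => hq.1 hp)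
  rw [← Pals_eq hb hN h0 hx he] at key
  obtain ⟨hV1, hV2⟩ := hV y hy3
  set A : ℝ := (b : ℝ) ^ L / Fintype.card G with hA
  have hA0 : 0 ≤ A := by positivity
  have hTA : (b : ℝ) ^ L = T := by rw [hT]; push_cast; rfl
  rw [abs_le] at key
  have hAV : 0 ≤ A * VQ (Qb b f) y := mul_nonneg hA0 ((by positivity : (0 : ℝ) ≤ c1 / Real.log y ^ k).trans hV1)
  constructor
  · intro hl
    have h1 : c1 / 2 / Fintype.card G / Real.log b ^ k * (b : ℝ) ^ L / (L : ℝ) ^ k ≤
        (((Pals b N L x e g g₀).filter (fun n : ℕ => ∀ p ∈ pz y, ¬ Qb b f p n)).card : ℝ) := by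
      have h2 : c1 * A / Real.log T ^ k ≤ A * VQ (Qb b f) y := by
        calc c1 * A / Real.log T ^ k ≤ c1 * A / Real.log y ^ k := by gcongr
          _ = A * (c1 / Real.log y ^ k) := by ring
          _ ≤ _ := mul_le_mul_of_nonneg_left hV1 hA0
      have h3 : c1 / 2 / Fintype.card G / Real.log b ^ k * (b : ℝ) ^ L / (L : ℝ) ^ k =
          1 / 2 * (c1 * A / Real.log T ^ k) := by
        rw [hlT, hA, mul_pow]
        field_simp
      rw [h3]
      linarith [key.1]
    refine h1.trans ?_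
    have h2 : (Pals b N L x e g g₀).filter (fun n : ℕ => ∀ p ∈ pz y, ¬ Qb b f p n) ⊆
        (Pals b N L x e g g₀).filter (fun n : ℕ => ∀ i, ((f i).eval (n : ℤ)).natAbs ≠ 0 ∧
        ((f i).eval (n : ℤ)).natAbs.primeFactorsList.length * L ≤ 2 * K * (1 + 3 * DD) * N ∧
        ∀ p : ℕ, p.Prime → p ∣ ((f i).eval (n : ℤ)).natAbs → T < p ^ K) := by
      intro n hn
      rw [mem_filter] at hn ⊢
      refine ⟨hn.1, fun i => ?_⟩
      have hn2 := (loc_iff hb hN h0 hx he hl hn.1 y).1 hn.2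
      have hnd : ∀ p : ℕ, p.Prime → p ≤ y → ¬ p ∣ ((f i).eval (n : ℤ)).natAbs := by
        intro p hp hpy hd
        exact hn2 p hp hpy i (Int.natCast_dvd.2 hd)
      have hne : ((f i).eval (n : ℤ)).natAbs ≠ 0 := by
        intro h0
        apply hnd 2 Nat.prime_two (by omega)
        rw [h0]
        exact dvd_zero 2
      refine ⟨hne, ?_, ?_⟩
      · have h3 := Pool.Agent.X55.Pal.few hne hnd
        have hnlt : n ≤ b ^ (2 * N + 1) := by
          have := hn.1
          unfold Pals at this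
          rw [mem_filter, mem_range] at this
          exact this.1.le
        have h4 : ((f i).eval (n : ℤ)).natAbs ≤ b ^ (N * (1 + 3 * DD)) := by
          refine (hLD i n (b ^ (2 * N + 1)) (Nat.one_le_pow _ _ (by omega)) hnlt).trans ?_
          calc L' i * (b ^ (2 * N + 1)) ^ D i ≤ b ^ N * (b ^ (3 * N)) ^ DD := by
                apply Nat.mul_le_mul
                · exact ((hLL1 i).trans hTL).trans (Nat.pow_le_pow_right (by omega) hN.le)
                · calc (b ^ (2 * N + 1)) ^ D i ≤ (b ^ (3 * N)) ^ D i :=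
                        Nat.pow_le_pow_left (Nat.pow_le_pow_right (by omega) (by omega)) _
                    _ ≤ (b ^ (3 * N)) ^ DD := Nat.pow_le_pow_right (Nat.one_le_pow _ _ (by omega)) (hDD1 i)
            _ = b ^ (N * (1 + 3 * DD)) := by rw [← pow_mul, ← pow_add]; congr 1; ring
        set l := ((f i).eval (n : ℤ)).natAbs.primeFactorsList.length with hl'
        have h5 : b ^ (L * l) ≤ b ^ (N * (1 + 3 * DD) * (2 * K)) := by
          calc b ^ (L * l) = T ^ l := by rw [hT, ← pow_mul]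
            _ ≤ (y ^ (2 * K)) ^ l := Nat.pow_le_pow_left hy2.le _
            _ = (y ^ l) ^ (2 * K) := by rw [← pow_mul, ← pow_mul, mul_comm]
            _ ≤ (b ^ (N * (1 + 3 * DD))) ^ (2 * K) := Nat.pow_le_pow_left (h3.trans h4) _
            _ = _ := by rw [← pow_mul]
        have h6 := (Nat.pow_le_pow_iff_right (by omega : 1 < b)).1 h5
        calc l * L = L * l := by ring
          _ ≤ N * (1 + 3 * DD) * (2 * K) := h6
          _ = _ := by ring
      · intro p hp hd
        have h3 : y < p := by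
          by_contra hcon
          exact hnd p hp (by omega) hd
        exact lt_of_lt_of_le hy1 (Nat.pow_le_pow_left h3 K)
    exact_mod_cast card_le_card h2
  · -- the upper bound
    have hsub : (Pals b N L x e g g₀).filter (fun n : ℕ => ∀ i, ((f i).eval (n : ℤ)).natAbs.Prime) ⊆
        (Pals b N L x e g g₀).filter (fun n : ℕ => ∀ p ∈ pz y, ¬ Qb b f p n) ∪
          univ.biUnion (fun i => (Icc (-(y : ℤ)) y).biUnion (fun t =>
            (Pals b N L x e g g₀).filter (fun n : ℕ => (f i).eval (n : ℤ) = t))) := by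
      intro n hn
      rw [mem_filter] at hn
      rw [mem_union]
      by_cases hsm : ∃ i, ((f i).eval (n : ℤ)).natAbs ≤ y
      · right
        obtain ⟨i, hi⟩ := hsm
        rw [mem_biUnion]
        refine ⟨i, mem_univ _, ?_⟩
        rw [mem_biUnion]
        refine ⟨(f i).eval (n : ℤ), ?_, mem_filter.2 ⟨hn.1, rfl⟩⟩
        rw [mem_Icc]
        omega
      · left
        push Not at hsm
        rw [mem_filter]
        refine ⟨hn.1, fun p hp => ?_⟩
        rintro ⟨-, i, hi⟩
        rw [mem_pz] at hp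
        have h1 := (Nat.prime_dvd_prime_iff_eq hp.2 (hn.2 i)).1 (Int.natCast_dvd.1 hi)
        have := hsm i
        omega
    have hcard2 : ((univ.biUnion (fun i => (Icc (-(y : ℤ)) y).biUnion (fun t =>
            (Pals b N L x e g g₀).filter (fun n : ℕ => (f i).eval (n : ℤ) = t)))).card : ℝ) ≤ ee * (2 * y + 1) := by
      have h2 : (univ.biUnion (fun i => (Icc (-(y : ℤ)) y).biUnion (fun t =>
            (Pals b N L x e g g₀).filter (fun n : ℕ => (f i).eval (n : ℤ) = t)))).card ≤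
          ∑ i, ∑ t ∈ Icc (-(y : ℤ)) y, ((Pals b N L x e g g₀).filter (fun n : ℕ => (f i).eval (n : ℤ) = t)).card :=
          card_biUnion_le.trans (sum_le_sum fun i _ => card_biUnion_le)
      have h3 : (univ.biUnion (fun i => (Icc (-(y : ℤ)) y).biUnion (fun t =>
            (Pals b N L x e g g₀).filter (fun n : ℕ => (f i).eval (n : ℤ) = t)))).card ≤
          ∑ i, ∑ t ∈ Icc (-(y : ℤ)) y, (f i).natDegree := by
        refine h2.trans (sum_le_sum fun i _ => sum_le_sum fun t _ => ?_)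
        apply roots_card (f i) (h.deg i) _ t
        intro m hm
        exact (mem_filter.1 hm).2
      have h4 : ∑ i, ∑ t ∈ Icc (-(y : ℤ)) y, (f i).natDegree = (∑ i, (f i).natDegree) * (2 * y + 1) := by
        rw [sum_mul]
        refine sum_congr rfl fun i _ => ?_
        rw [sum_const, Int.card_Icc, smul_eq_mul, mul_comm]
        congr 1
        omega
      rw [h4] at h3
      have h5 : ((univ.biUnion (fun i => (Icc (-(y : ℤ)) y).biUnion (fun t =>
            (Pals b N L x e g g₀).filter (fun n : ℕ => (f i).eval (n : ℤ) = t)))).card : ℝ) ≤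
          (((∑ i, (f i).natDegree) * (2 * y + 1) : ℕ) : ℝ) := by exact_mod_cast h3
      refine h5.trans (le_of_eq ?_)
      rw [hee]
      push_cast
      ring
    have h1 : (((Pals b N L x e g g₀).filter (fun n : ℕ => ∀ i, ((f i).eval (n : ℤ)).natAbs.Prime)).card : ℝ) ≤
        (((Pals b N L x e g g₀).filter (fun n : ℕ => ∀ p ∈ pz y, ¬ Qb b f p n)).card : ℝ) + ee * (2 * y + 1) := by
      have h2 := (card_le_card hsub).trans (card_union_le _ _)
      have h3 : (((Pals b N L x e g g₀).filter (fun n : ℕ => ∀ i, ((f i).eval (n : ℤ)).natAbs.Prime)).card : ℝ) ≤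
        (((Pals b N L x e g g₀).filter (fun n : ℕ => ∀ p ∈ pz y, ¬ Qb b f p n)).card : ℝ) +
        ((univ.biUnion (fun i => (Icc (-(y : ℤ)) y).biUnion (fun t =>
            (Pals b N L x e g g₀).filter (fun n : ℕ => (f i).eval (n : ℤ) = t)))).card : ℝ) := by exact_mod_cast h2
      linarith
    refine h1.trans ?_
    have hAT : A ≤ T := by
      rw [hA, hTA]
      exact div_le_self (by linarith) hG1
    have h2 : A * VQ (Qb b f) y ≤ C1 * (2 * K) ^ k * T / Real.log T ^ k := by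
      calc A * VQ (Qb b f) y ≤ T * (C1 / Real.log y ^ k) :=
            mul_le_mul hAT hV2 (VQ_nonneg _ _) (by linarith)
        _ ≤ T * (C1 / (Real.log T / (2 * K)) ^ k) := by
            have h5 : Real.log T / (2 * K) ≤ Real.log y := by
              rw [div_le_iff₀ (by positivity)]
              linarith
            have h6 : 0 < Real.log T / (2 * K) := by positivity
            gcongr
        _ = _ := by
            rw [div_pow]
            field_simp
    have h3 : ee * (2 * y + 1) ≤ T / Real.log T ^ k := by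
      have h4 : (y : ℝ) ≤ (T : ℝ) ^ (1 / 2 : ℝ) := by
        have h5 : (y : ℝ) ^ 2 ≤ T := by
          have : y ^ 2 ≤ T := (Nat.pow_le_pow_right (by omega) hK2).trans hyK
          exact_mod_cast this
        rw [← Real.sqrt_eq_rpow]
        exact Real.le_sqrt_of_sq_le h5
      have h5 : (1 : ℝ) ≤ (T : ℝ) ^ (1 / 2 : ℝ) := Real.one_le_rpow (by linarith) (by norm_num)
      have h6 : (T : ℝ) ^ (1 / 2 : ℝ) * (T : ℝ) ^ (1 / 2 : ℝ) = T := by
        rw [← Real.rpow_add (by linarith)]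
        norm_num
      rw [le_div_iff₀ (by positivity)]
      calc ee * (2 * y + 1) * Real.log T ^ k ≤ ee * (3 * (T : ℝ) ^ (1 / 2 : ℝ)) * Real.log T ^ k := by
            gcongr
            linarith
        _ = (3 * ee * Real.log T ^ k) * (T : ℝ) ^ (1 / 2 : ℝ) := by ring
        _ ≤ (T : ℝ) ^ (1 / 2 : ℝ) * (T : ℝ) ^ (1 / 2 : ℝ) := by
            apply mul_le_mul_of_nonneg_right _ (by positivity)
            refine le_trans ?_ hE1
            apply mul_le_mul_of_nonneg_right _ (by positivity)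
            linarith
        _ = T := h6
    have h4 : (2 * (C1 * (2 * K) ^ k) + 1) / Real.log b ^ k * (b : ℝ) ^ L / (L : ℝ) ^ k =
        2 * (C1 * (2 * K) ^ k * T / Real.log T ^ k) + T / Real.log T ^ k := by
      rw [hlT, hTA, mul_pow]
      field_simp
      ring
    rw [h4]
    linarith [key.2]

end Pool.Agent.X220.PD
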