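import Pool.Agent.Y816.PS.A

set_option autoImplicit false

/-! # The error terms of the palindromes with the weights `c ^ ω(q)` -/

namespace Pool.Agent.X220.PD

open Finset Filter Topology
open Pool.Agent.W89.PW (PtW BigW Fw)
open Pool.Agent.W261.PWBV (U U_nonneg U_sum)
open Pool.Agent.Y816.PS (er er_nonneg)
open Pool.Agent.H885R3.PBT7 (cover)
open Pool.Agent.W139.PX

/-- the double sum over the divisors -/
lemma dbl (F : ℕ → ℕ → ℝ) (hF : ∀ d e, 0 ≤ F d e) (D : ℕ) (S T : Finset ℕ) (hS : S ⊆ Icc 1 D) (P : ℕ → Prop)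
    [DecidablePred P] (hT : ∀ q ∈ S, ∀ d ∈ q.divisors, P d → d ∈ T) :
    ∑ q ∈ S, ∑ d ∈ q.divisors.filter P, F d (q / d) ≤ ∑ d ∈ T, ∑ e ∈ Icc 1 D, F d e := by
  classical
  rw [sum_sigma']
  have hinj : Set.InjOn (fun x : (_ : ℕ) × ℕ => (x.2, x.1 / x.2))
      ((S.sigma fun q => q.divisors.filter P : Finset ((_ : ℕ) × ℕ)) : Set ((_ : ℕ) × ℕ)) := by
    rintro ⟨q, d⟩ hx ⟨q', d'⟩ hx' hxx
    rw [Finset.mem_coe, mem_sigma, mem_filter, Nat.mem_divisors] at hx hx'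
    simp only [Prod.mk.injEq] at hxx
    obtain ⟨h1, h2⟩ := hxx
    simp only at hx hx'
    subst h1
    have h3 : q = q' := by
      rw [← Nat.div_mul_cancel hx.2.1.1, h2, Nat.div_mul_cancel hx'.2.1.1]
    subst h3
    rfl
  have h1 : ∑ x ∈ S.sigma (fun q => q.divisors.filter P), F x.2 (x.1 / x.2) =
      ∑ y ∈ (S.sigma (fun q => q.divisors.filter P)).image (fun x : (_ : ℕ) × ℕ => (x.2, x.1 / x.2)), F y.1 y.2 := by
    rw [sum_image hinj]
  rw [h1, ← sum_product' (f := fun d e => F d e)]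
  apply sum_le_sum_of_subset_of_nonneg
  · intro y hy
    rw [mem_image] at hy
    obtain ⟨⟨q, d⟩, hx, rfl⟩ := hy
    rw [mem_sigma, mem_filter] at hx
    simp only at hx ⊢
    rw [mem_product]
    have hq := mem_Icc.1 (hS hx.1)
    refine ⟨hT q hx.1 d hx.2.1 hx.2.2, ?_⟩
    rw [mem_Icc]
    have hd := Nat.mem_divisors.1 hx.2.1
    have hd0 : 0 < d := Nat.pos_of_dvd_of_pos hd.1 hq.1
    exact ⟨Nat.div_pos (Nat.le_of_dvd hq.1 hd.1) hd0, (Nat.div_le_self _ _).trans hq.2⟩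
  · intro y _ _
    exact hF _ _

lemma pow_succ_le (c q : ℕ) (hq : q ≠ 0) : ((c : ℝ) + 1) ^ q.primeFactors.card ≤
    ∑ d ∈ q.divisors, (c : ℝ) ^ d.primeFactors.card := by
  classical
  have h1 := sum_pow_mul_eq_add_pow (c : ℝ) 1 q.primeFactors
  simp only [one_pow, mul_one] at h1
  rw [← h1]
  have hp : ∀ S ∈ q.primeFactors.powerset, ∀ p ∈ S, p.Prime := fun S hS p hp =>
    Nat.prime_of_mem_primeFactors (mem_powerset.1 hS hp)
  have h2 : ∀ S ∈ q.primeFactors.powerset, (∏ p ∈ S, p).primeFactors = S := fun S hS =>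
    Nat.primeFactors_prod (hp S hS)
  have hinj : Set.InjOn (fun S : Finset ℕ => ∏ p ∈ S, p) (q.primeFactors.powerset : Set (Finset ℕ)) := by
    intro S hS S' hS' h
    simp only at h
    rw [← h2 S hS, ← h2 S' hS', h]
  have h3 : ∑ S ∈ q.primeFactors.powerset, (c : ℝ) ^ S.card =
      ∑ d ∈ q.primeFactors.powerset.image (fun S : Finset ℕ => ∏ p ∈ S, p), (c : ℝ) ^ d.primeFactors.card := by
    rw [sum_image hinj]
    exact sum_congr rfl fun S hS => by rw [h2 S hS]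
  rw [h3]
  apply sum_le_sum_of_subset_of_nonneg
  · intro d hd
    rw [mem_image] at hd
    obtain ⟨S, hS, rfl⟩ := hd
    rw [Nat.mem_divisors]
    refine ⟨?_, hq⟩
    exact (prod_dvd_prod_of_subset _ _ _ (mem_powerset.1 hS)).trans (Nat.prod_primeFactors_dvd q)
  · intro d _ _
    positivity

lemma om_sum (c D : ℕ) : ∑ q ∈ Icc 1 D, (c : ℝ) ^ q.primeFactors.card / q ≤ (1 + Real.log D) ^ c := by
  induction c with
  | zero =>
    rw [pow_zero]
    have h1 : ∀ q ∈ Icc 1 D, ((0 : ℕ) : ℝ) ^ q.primeFactors.card / q ≤ if q = 1 then 1 else 0 := by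
      intro q hq
      rw [mem_Icc] at hq
      split_ifs with h
      · subst h; simp
      · have h2 : q.primeFactors.card ≠ 0 := by
          rw [Ne, card_eq_zero, Nat.primeFactors_eq_empty]
          omega
        rw [Nat.cast_zero, zero_pow h2, zero_div]
    refine (sum_le_sum h1).trans ?_
    rw [sum_ite_eq' (Icc 1 D) 1 (fun _ => (1 : ℝ))]
    split_ifs <;> norm_num
  | succ c ih =>
    have h1 : ∑ q ∈ Icc 1 D, ((c + 1 : ℕ) : ℝ) ^ q.primeFactors.card / q ≤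
        ∑ q ∈ Icc 1 D, ∑ d ∈ q.divisors.filter (fun _ => True), (c : ℝ) ^ d.primeFactors.card / d * (1 / ((q / d : ℕ) : ℝ)) := by
      refine sum_le_sum fun q hq => ?_
      rw [mem_Icc] at hq
      rw [filter_true]
      have h2 := pow_succ_le c q (by omega)
      push_cast
      calc ((c : ℝ) + 1) ^ q.primeFactors.card / q ≤ (∑ d ∈ q.divisors, (c : ℝ) ^ d.primeFactors.card) / q := by
            gcongr
        _ = _ := by
            rw [sum_div]
            refine sum_congr rfl fun d hd => ?_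
            have hd1 := Nat.mem_divisors.1 hd
            have hd0 : (0 : ℝ) < d := by exact_mod_cast Nat.pos_of_dvd_of_pos hd1.1 (by omega)
            have hq0 : (0 : ℝ) < q := by exact_mod_cast (by omega : 0 < q)
            rw [Nat.cast_div hd1.1 hd0.ne']
            field_simp
    have h2 := dbl (fun d e => (c : ℝ) ^ d.primeFactors.card / d * (1 / (e : ℝ))) (fun d e => by positivity) D
      (Icc 1 D) (Icc 1 D) subset_rfl (fun _ => True) (by
        intro q hq d hd _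
        rw [mem_Icc] at hq ⊢
        have hd1 := Nat.mem_divisors.1 hd
        exact ⟨Nat.pos_of_dvd_of_pos hd1.1 hq.1, (Nat.le_of_dvd hq.1 hd1.1).trans hq.2⟩)
    refine h1.trans (h2.trans ?_)
    rw [← sum_mul_sum, pow_succ]
    have h3 : ∑ e ∈ Icc 1 D, (1 : ℝ) / e ≤ 1 + Real.log D := by
      have h4 := harmonic_le_one_add_log D
      have h5 : ((harmonic D : ℚ) : ℝ) = ∑ e ∈ Icc 1 D, (1 : ℝ) / e := by
        rw [harmonic_eq_sum_Icc]
        push_cast
        exact sum_congr rfl fun e _ => by rw [one_div]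
      rw [← h5]
      exact h4
    have h6 : 0 ≤ Real.log D := Real.log_natCast_nonneg D
    exact mul_le_mul ih h3 (sum_nonneg fun _ _ => by positivity) (by positivity)

lemma om_mul (c d e : ℕ) (hc : 1 ≤ c) (hd : d ≠ 0) (he : e ≠ 0) :
    (c : ℝ) ^ (d * e).primeFactors.card ≤ (c : ℝ) ^ d.primeFactors.card * (c : ℝ) ^ e.primeFactors.card := by
  rw [← pow_add]
  apply pow_le_pow_right₀ (by exact_mod_cast hc)
  rw [Nat.primeFactors_mul hd he]
  exact card_union_le _ _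

/-- the weights are small powers -/
lemma om_pow (c : ℕ) {η : ℝ} (hη : 0 < η) : ∃ C : ℝ, 0 < C ∧ ∀ q : ℕ, 1 ≤ q →
    (c : ℝ) ^ q.primeFactors.card ≤ C * (q : ℝ) ^ η := by
  obtain ⟨C1, hC1, h1⟩ := Pool.Agent.Helper112.divisor_bound (η / (c + 1)) (by positivity)
  refine ⟨C1 ^ c, by positivity, fun q hq => ?_⟩
  have hqr : (1 : ℝ) ≤ q := by exact_mod_cast hq
  have h2 : 2 ^ q.primeFactors.card ≤ q.divisors.card := by
    rw [Nat.card_divisors (by omega), ← prod_const]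
    apply prod_le_prod'
    intro p hp
    have h1 : 1 ≤ q.factorization p :=
      (Nat.mem_primeFactors.1 hp).1.factorization_pos_of_dvd (by omega) (Nat.mem_primeFactors.1 hp).2.1
    omega
  have h3 : (2 : ℝ) ^ q.primeFactors.card ≤ q.divisors.card := by exact_mod_cast h2
  have h4 : (c : ℝ) ≤ 2 ^ c := by
    have : c ≤ 2 ^ c := Nat.lt_two_pow_self.le
    exact_mod_cast this
  calc (c : ℝ) ^ q.primeFactors.card ≤ (2 ^ c : ℝ) ^ q.primeFactors.card := pow_le_pow_left₀ (Nat.cast_nonneg _) h4 _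
    _ = ((2 : ℝ) ^ q.primeFactors.card) ^ c := by rw [← pow_mul, ← pow_mul, mul_comm]
    _ ≤ (C1 * (q : ℝ) ^ (η / (c + 1))) ^ c := by
        apply pow_le_pow_left₀ (by positivity)
        exact h3.trans (h1 q hq)
    _ = C1 ^ c * (q : ℝ) ^ (η / (c + 1) * c) := by
        rw [mul_pow, ← Real.rpow_natCast ((q : ℝ) ^ (η / (c + 1))), ← Real.rpow_mul (by linarith)]
    _ ≤ C1 ^ c * (q : ℝ) ^ η := by
        apply mul_le_mul_of_nonneg_left _ (by positivity)
        apply Real.rpow_le_rpow_of_exponent_le hqr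
        rw [div_mul_eq_mul_div, div_le_iff₀ (by positivity)]
        nlinarith [(Nat.cast_nonneg c : (0 : ℝ) ≤ c)]

/-- the large sieve input -/
theorem bigW {b : ℕ} (hb : 2 ≤ b) : BigW b b 1 (49 / 100) := by
  have hbR : (2 : ℝ) ≤ b := by exact_mod_cast hb
  have hb0 : (0 : ℝ) < b := by linarith
  set H : ℝ := Real.sqrt (1 / b) with hH
  have hH0 : 0 < H := Real.sqrt_pos.2 (by positivity)
  have hH2 : H ^ 2 = 1 / b := Real.sq_sqrt (by positivity)
  have hb1 : 1 / (b : ℝ) ≤ 1 := by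
    rw [div_le_one hb0]
    linarith
  have hH1 : H ≤ 1 := by
    by_contra hcon
    push Not at hcon
    have h1 : 1 < H ^ 2 := one_lt_pow₀ hcon two_ne_zero
    linarith
  have hHb : 1 ≤ b * H := by
    have h1 : (b : ℝ) * H ^ 2 = 1 := by
      rw [hH2]
      field_simp
    have h2 : H ^ 2 ≤ H := by nlinarith
    have h3 : (b : ℝ) * H ^ 2 ≤ b * H := mul_le_mul_of_nonneg_left h2 hb0.le
    linarith
  have hMaj : MajP b b 1 H (1 / H ^ 3) := majP_alt hb (by omega) le_rfl le_rfl (by omega) hH0 hH1 (by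
    rw [hH2, Nat.cast_one, mul_one])
  have hκ : (b : ℝ) ^ (49 / 100 : ℝ) * H < 1 := by
    rw [hH, Real.sqrt_eq_rpow, one_div, Real.inv_rpow hb0.le]
    rw [← div_eq_mul_inv, div_lt_one (by positivity)]
    exact Real.rpow_lt_rpow_of_exponent_lt (by linarith) (by norm_num)
  exact bigW_of_majP hb (by omega) le_rfl rfl (m4_unif hb) hMaj hH0 hHb (by positivity) (by norm_num) hκ

/-- the number of the dyadic blocks -/
lemma log_count {b : ℕ} (hb : 2 ≤ b) (L : ℕ) :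
    (Nat.log 2 ⌊(b : ℝ) ^ ((49 / 100 : ℝ) * L)⌋₊ : ℝ) ≤ L * (2 * Real.log b) := by
  have hbR : (2 : ℝ) ≤ b := by exact_mod_cast hb
  have hBl : 0 < Real.log b := Real.log_pos (by linarith)
  set D := ⌊(b : ℝ) ^ ((49 / 100 : ℝ) * L)⌋₊ with hD
  rcases Nat.eq_zero_or_pos D with h0 | h0
  · rw [h0]; simp; positivity
  have e1 : 2 ^ Nat.log 2 D ≤ D := Nat.pow_log_le_self 2 h0.ne'
  have e2 : (2 : ℝ) ^ Nat.log 2 D ≤ (b : ℝ) ^ ((49 / 100 : ℝ) * L) := by
    have : (2 : ℝ) ^ Nat.log 2 D ≤ D := by exact_mod_cast e1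
    exact this.trans (Nat.floor_le (by positivity))
  have e3 := Real.log_le_log (by positivity) e2
  rw [Real.log_pow, Real.log_rpow (by linarith)] at e3
  have hl2 : 1 / 2 ≤ Real.log 2 := by
    have := Real.log_two_gt_d9
    linarith
  have hLr : (0 : ℝ) ≤ L := Nat.cast_nonneg _
  have e6 : (49 / 100 : ℝ) * L * Real.log b ≤ L * (2 * Real.log b) * Real.log 2 := by
    have : 0 ≤ (L : ℝ) * Real.log b := by positivity
    nlinarith
  exact le_of_mul_le_mul_right (e3.trans e6) (by linarith)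

/-- a crude bound -/
lemma crude {b : ℕ} (hb : 2 ≤ b) (c : ℕ) : ∃ C : ℝ, 0 < C ∧ ∀ L : ℕ,
    ∑ d ∈ (Icc 2 ⌊(b : ℝ) ^ ((49 / 100 : ℝ) * L)⌋₊).filter (fun q => q.Coprime (2 * b)),
      (c : ℝ) ^ d.primeFactors.card * U b b 1 L d / d ≤ C * L := by
  obtain ⟨C, δ, hC, hδ, hδ1, big⟩ := bigW hb
  obtain ⟨C1, hC1, hw⟩ := om_pow c hδ
  have hbR : (2 : ℝ) ≤ b := by exact_mod_cast hb
  have hBl : 0 < Real.log b := Real.log_pos (by linarith)
  refine ⟨C1 * 2 ^ δ * C * (2 * Real.log b), by positivity, fun L => ?_⟩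
  set D := ⌊(b : ℝ) ^ ((49 / 100 : ℝ) * L)⌋₊ with hD
  have hg : ∀ q : ℕ, 0 ≤ (c : ℝ) ^ q.primeFactors.card * U b b 1 L q / q := fun q =>
    div_nonneg (mul_nonneg (by positivity) (U_nonneg b b 1 L q)) (Nat.cast_nonneg q)
  refine (cover (2 * b) D _ hg).trans ?_
  have hterm : ∀ j ∈ Icc 1 (Nat.log 2 D),
      ∑ q ∈ (Ico (2 ^ j) (2 * 2 ^ j)).filter (fun q => q.Coprime (2 * b)),
        (c : ℝ) ^ q.primeFactors.card * U b b 1 L q / q ≤ C1 * 2 ^ δ * C := by
    intro j hj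
    rw [mem_Icc] at hj
    have hD0 : D ≠ 0 := by
      intro h0
      rw [h0] at hj
      simp at hj
      omega
    have hjD : ((2 ^ j : ℕ) : ℝ) ≤ (b : ℝ) ^ ((49 / 100 : ℝ) * L) := by
      have e1 : 2 ^ j ≤ D :=
        (Nat.pow_le_pow_right (by norm_num) hj.2).trans (Nat.pow_log_le_self 2 hD0)
      have e2 : ((2 ^ j : ℕ) : ℝ) ≤ D := by exact_mod_cast e1
      exact e2.trans (Nat.floor_le (by positivity))
    have hQ1 : 1 ≤ 2 ^ j := Nat.one_le_two_pow
    have hb2 := big L (2 ^ j) hQ1 hjD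
    have hU : ∑ q ∈ (Ico (2 ^ j) (2 * 2 ^ j)).filter (fun q => q.Coprime (2 * b)), U b b 1 L q ≤
        C * ((2 ^ j : ℕ) : ℝ) ^ (1 - δ) := hb2
    have hQr : (1 : ℝ) ≤ ((2 ^ j : ℕ) : ℝ) := by exact_mod_cast hQ1
    have hQ0 : (0 : ℝ) < ((2 ^ j : ℕ) : ℝ) := by linarith
    calc ∑ q ∈ (Ico (2 ^ j) (2 * 2 ^ j)).filter (fun q => q.Coprime (2 * b)),
          (c : ℝ) ^ q.primeFactors.card * U b b 1 L q / q
        ≤ ∑ q ∈ (Ico (2 ^ j) (2 * 2 ^ j)).filter (fun q => q.Coprime (2 * b)),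
          (C1 * (2 ^ δ * ((2 ^ j : ℕ) : ℝ) ^ δ) / ((2 ^ j : ℕ) : ℝ)) * U b b 1 L q := by
          refine sum_le_sum fun q hq => ?_
          rw [mem_filter, mem_Ico] at hq
          have hq1 : 1 ≤ q := hQ1.trans hq.1.1
          have hqr : (1 : ℝ) ≤ q := by exact_mod_cast hq1
          have h2 := hw q hq1
          have h3 : (q : ℝ) ^ δ ≤ 2 ^ δ * ((2 ^ j : ℕ) : ℝ) ^ δ := by
            rw [← Real.mul_rpow (by norm_num) (by linarith)]
            apply Real.rpow_le_rpow (by linarith) _ hδ.le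
            have : q ≤ 2 * 2 ^ j := hq.1.2.le
            exact_mod_cast this
          have h4 : ((2 ^ j : ℕ) : ℝ) ≤ q := by exact_mod_cast hq.1.1
          rw [mul_div_right_comm]
          apply mul_le_mul_of_nonneg_right _ (U_nonneg _ _ _ _ _)
          apply div_le_div₀ (by positivity) _ hQ0 h4
          exact h2.trans (mul_le_mul_of_nonneg_left h3 hC1.le)
      _ = (C1 * (2 ^ δ * ((2 ^ j : ℕ) : ℝ) ^ δ) / ((2 ^ j : ℕ) : ℝ)) *
          ∑ q ∈ (Ico (2 ^ j) (2 * 2 ^ j)).filter (fun q => q.Coprime (2 * b)), U b b 1 L q := by rw [mul_sum]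
      _ ≤ (C1 * (2 ^ δ * ((2 ^ j : ℕ) : ℝ) ^ δ) / ((2 ^ j : ℕ) : ℝ)) * (C * ((2 ^ j : ℕ) : ℝ) ^ (1 - δ)) :=
          mul_le_mul_of_nonneg_left hU (by positivity)
      _ = C1 * 2 ^ δ * C * (((2 ^ j : ℕ) : ℝ) ^ δ * ((2 ^ j : ℕ) : ℝ) ^ (1 - δ) / ((2 ^ j : ℕ) : ℝ)) := by ring
      _ = C1 * 2 ^ δ * C := by
          rw [← Real.rpow_add hQ0, add_sub_cancel, Real.rpow_one, div_self hQ0.ne', mul_one]
  refine (sum_le_sum hterm).trans ?_
  rw [sum_const, nsmul_eq_mul, Nat.card_Icc, Nat.add_sub_cancel]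
  have h5 := log_count hb L
  calc (Nat.log 2 D : ℝ) * (C1 * 2 ^ δ * C) ≤ (L * (2 * Real.log b)) * (C1 * 2 ^ δ * C) :=
        mul_le_mul_of_nonneg_right h5 (by positivity)
    _ = _ := by ring

/-- the sums of the exponential sums with weights -/
lemma U_om {b : ℕ} (hb : 2 ≤ b) (c A : ℕ) : ∀ᶠ L : ℕ in atTop,
    ∑ d ∈ (Icc 2 ⌊(b : ℝ) ^ ((49 / 100 : ℝ) * L)⌋₊).filter (fun q => q.Coprime (2 * b)),
      (c : ℝ) ^ d.primeFactors.card * U b b 1 L d / d ≤ 1 / (L : ℝ) ^ A := by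
  obtain ⟨C, hC, hcr⟩ := crude hb (c ^ 2)
  have hPt : PtW b b 1 := Pool.Agent.W571.PW.Pt.main b b 1 hb hb le_rfl rfl
  filter_upwards [U_sum b b 1 hb hPt (49 / 100) (by norm_num) (by norm_num) (bigW hb) (2 * A + 2),
    eventually_ge_atTop (max 1 ⌈C⌉₊)] with L h1 hL
  have hL1 : 1 ≤ L := (le_max_left _ _).trans hL
  have hLC : C ≤ L := (Nat.le_ceil C).trans (by exact_mod_cast (le_max_right _ _).trans hL)
  have hLr : (1 : ℝ) ≤ L := by exact_mod_cast hL1
  set S := (Icc 2 ⌊(b : ℝ) ^ ((49 / 100 : ℝ) * L)⌋₊).filter (fun q => q.Coprime (2 * b)) with hS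
  have h2 := sum_sq_le_sum_mul_sum_of_sq_eq_mul S (r := fun d => (c : ℝ) ^ d.primeFactors.card * U b b 1 L d / d)
    (f := fun d => ((c ^ 2 : ℕ) : ℝ) ^ d.primeFactors.card * U b b 1 L d / d) (g := fun d => U b b 1 L d / d)
    (fun d _ => div_nonneg (mul_nonneg (by positivity) (U_nonneg _ _ _ _ _)) (Nat.cast_nonneg _))
    (fun d _ => div_nonneg (U_nonneg _ _ _ _ _) (Nat.cast_nonneg _)) (fun d _ => by
      push_cast
      rw [← pow_mul, mul_comm 2, pow_mul]
      ring)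
  have h3 : ∑ d ∈ S, U b b 1 L d / d ≤ 1 / (L : ℝ) ^ (2 * A + 2) := by
    refine le_trans (sum_le_sum fun d hd => ?_) h1
    rw [hS, mem_filter, mem_Icc] at hd
    apply div_le_div_of_nonneg_right _ (Nat.cast_nonneg _)
    have h4 : (1 : ℝ) ≤ (d.divisors.card : ℝ) := by
      have : 0 < d.divisors.card := card_pos.2 ⟨1, Nat.one_mem_divisors.2 (by omega)⟩
      exact_mod_cast this
    have h5 : (1 : ℝ) ≤ (d.divisors.card : ℝ) ^ 2 := one_le_pow₀ h4
    exact le_mul_of_one_le_left (U_nonneg _ _ _ _ _) h5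
  have h4 : (∑ d ∈ S, (c : ℝ) ^ d.primeFactors.card * U b b 1 L d / d) ^ 2 ≤ (1 / (L : ℝ) ^ A) ^ 2 := by
    refine h2.trans ?_
    calc _ ≤ (C * L) * (1 / (L : ℝ) ^ (2 * A + 2)) := mul_le_mul (hcr L) h3
          (sum_nonneg fun d _ => div_nonneg (U_nonneg _ _ _ _ _) (Nat.cast_nonneg _)) (by positivity)
      _ ≤ (L * L) * (1 / (L : ℝ) ^ (2 * A + 2)) := by gcongr
      _ = (1 / (L : ℝ) ^ A) ^ 2 := by
          rw [pow_add, pow_mul']
          field_simp
  exact le_of_pow_le_pow_left₀ two_ne_zero (by positivity) h4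

/-- **the error terms with the weights `c ^ ω(q)`** -/
theorem er_om {b : ℕ} (hb : 2 ≤ b) (c : ℕ) (hc : 1 ≤ c) (A : ℕ) : ∀ᶠ L : ℕ in atTop,
    ∑ q ∈ (Icc 1 ⌊(b : ℝ) ^ ((49 / 100 : ℝ) * L)⌋₊).filter (fun q => q.Coprime (2 * b)),
      (c : ℝ) ^ q.primeFactors.card * er b L q ≤ (b : ℝ) ^ L / (L : ℝ) ^ A := by
  have hbR : (2 : ℝ) ≤ b := by exact_mod_cast hb
  filter_upwards [U_om hb c (A + 2 * c), eventually_ge_atTop (b + 1)] with L h1 hL
  have hL1 : ((b : ℝ) + 1) ≤ L := by exact_mod_cast hL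
  have hL0 : (0 : ℝ) < L := by linarith
  set D := ⌊(b : ℝ) ^ ((49 / 100 : ℝ) * L)⌋₊ with hD
  set S := (Icc 1 D).filter (fun q => q.Coprime (2 * b)) with hS
  have hU := U_nonneg b b 1 L
  have h2 : ∑ q ∈ S, (c : ℝ) ^ q.primeFactors.card * er b L q ≤
      (b : ℝ) ^ L * ∑ q ∈ S, ∑ d ∈ q.divisors.filter (fun d => 1 < d),
        ((c : ℝ) ^ d.primeFactors.card * U b b 1 L d / d) * ((c : ℝ) ^ (q / d).primeFactors.card / ((q / d : ℕ) : ℝ)) := by
    rw [mul_sum]
    refine sum_le_sum fun q hq => ?_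
    rw [hS, mem_filter, mem_Icc] at hq
    unfold er
    rw [mul_sum, mul_sum, mul_sum]
    refine sum_le_sum fun d hd => ?_
    rw [mem_filter, Nat.mem_divisors] at hd
    obtain ⟨⟨⟨e, he⟩, _⟩, hd1⟩ := hd
    have hd0 : 0 < d := by omega
    have he0 : 0 < e := by
      rcases Nat.eq_zero_or_pos e with h0 | h0
      · subst h0; simp at he; omega
      · exact h0
    have hqd : q / d = e := by rw [he, Nat.mul_div_cancel_left _ hd0]
    rw [hqd, he]
    have hd' : (0 : ℝ) < d := by exact_mod_cast hd0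
    have he' : (0 : ℝ) < e := by exact_mod_cast he0
    have h3 := om_mul c d e hc hd0.ne' he0.ne'
    push_cast
    calc (c : ℝ) ^ (d * e).primeFactors.card * ((b : ℝ) ^ L / (d * e) * U b b 1 L d) ≤
        ((c : ℝ) ^ d.primeFactors.card * (c : ℝ) ^ e.primeFactors.card) * ((b : ℝ) ^ L / (d * e) * U b b 1 L d) := by
          apply mul_le_mul_of_nonneg_right h3
          exact mul_nonneg (by positivity) (hU d)
      _ = _ := by
          field_simp
  have h3 := dbl (fun d e => ((c : ℝ) ^ d.primeFactors.card * U b b 1 L d / d) * ((c : ℝ) ^ e.primeFactors.card / (e : ℝ)))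
    (fun d e => mul_nonneg (div_nonneg (mul_nonneg (by positivity) (hU d)) (Nat.cast_nonneg _)) (by positivity)) D S
    ((Icc 2 D).filter (fun q => q.Coprime (2 * b))) (filter_subset _ _) (fun d => 1 < d) (by
      intro q hq d hd hd1
      rw [hS, mem_filter, mem_Icc] at hq
      have h4 := Nat.mem_divisors.1 hd
      rw [mem_filter, mem_Icc]
      exact ⟨⟨hd1, (Nat.le_of_dvd hq.1.1 h4.1).trans hq.1.2⟩, Nat.Coprime.coprime_dvd_left h4.1 hq.2⟩)
  refine h2.trans ?_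
  have h4 : (1 + Real.log D) ≤ (L : ℝ) ^ 2 := by
    rcases Nat.eq_zero_or_pos D with h0 | h0
    · rw [h0]
      simp only [Nat.cast_zero, Real.log_zero, add_zero]
      exact one_le_pow₀ (by linarith)
    · have hDle : (D : ℝ) ≤ (b : ℝ) ^ ((49 / 100 : ℝ) * L) := Nat.floor_le (by positivity)
      have h5 : Real.log D ≤ ((49 / 100 : ℝ) * L) * Real.log b := by
        rw [← Real.log_rpow (by linarith)]
        exact Real.log_le_log (by exact_mod_cast h0) hDle
      have h6 : Real.log b ≤ b - 1 := Real.log_le_sub_one_of_pos (by linarith)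
      have h7 : ((49 / 100 : ℝ) * L) * Real.log b ≤ ((49 / 100 : ℝ) * L) * ((b : ℝ) - 1) :=
        mul_le_mul_of_nonneg_left h6 (by positivity)
      nlinarith
  have h5 : ∑ e ∈ Icc 1 D, (c : ℝ) ^ e.primeFactors.card / e ≤ ((L : ℝ) ^ 2) ^ c := by
    refine (om_sum c D).trans ?_
    apply pow_le_pow_left₀ _ h4
    have := Real.log_natCast_nonneg D
    linarith
  calc (b : ℝ) ^ L * ∑ q ∈ S, ∑ d ∈ q.divisors.filter (fun d => 1 < d),
        ((c : ℝ) ^ d.primeFactors.card * U b b 1 L d / d) * ((c : ℝ) ^ (q / d).primeFactors.card / ((q / d : ℕ) : ℝ))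
      ≤ (b : ℝ) ^ L * ((∑ d ∈ (Icc 2 D).filter (fun q => q.Coprime (2 * b)), (c : ℝ) ^ d.primeFactors.card * U b b 1 L d / d) *
        ∑ e ∈ Icc 1 D, (c : ℝ) ^ e.primeFactors.card / e) := by
        apply mul_le_mul_of_nonneg_left _ (by positivity)
        rw [sum_mul_sum]
        exact h3
    _ ≤ (b : ℝ) ^ L * ((1 / (L : ℝ) ^ (A + 2 * c)) * ((L : ℝ) ^ 2) ^ c) := by
        apply mul_le_mul_of_nonneg_left _ (by positivity)
        apply mul_le_mul h1 h5 (sum_nonneg fun _ _ => by positivity) (by positivity)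
    _ = (b : ℝ) ^ L / (L : ℝ) ^ A := by
        rw [pow_add, pow_mul]
        field_simp

end Pool.Agent.X220.PD
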