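import Pool.Agent.Y816.PS.H
import Pool.Agent.X220.PD.Wt

set_option autoImplicit false

/-! # Digital functions at palindromes: the exponential sums -/

namespace Pool.Agent.X220.PD

open Finset Filter Topology Pool.Agent.Helper112
open Pool.Agent.W89.PW (pv fr)
open Pool.Agent.H623R3.PBT8 (orth coprime_pos)
open Pool.Agent.Y816.PS (er er_nonneg cnth cnth_bound)

/-- the size of the exponential sum of a digit -/
noncomputable def phi (b : ℕ) (w : ℕ → ℂ) (x : ℝ) : ℝ := ‖∑ d ∈ range b, w d * ee ((d : ℝ) * x)‖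

lemma phi_nonneg (b : ℕ) (w : ℕ → ℂ) (x : ℝ) : 0 ≤ phi b w x := norm_nonneg _

lemma phi_le {b : ℕ} {w : ℕ → ℂ} (hw : ∀ d, ‖w d‖ = 1) (x : ℝ) : phi b w x ≤ b := by
  unfold phi
  refine (norm_sum_le _ _).trans (le_of_eq ?_)
  simp [hw, ls_norm_ee]

lemma phi_fract (b : ℕ) (w : ℕ → ℂ) (x : ℝ) : phi b w (Int.fract x) = phi b w x := by
  unfold phi
  congr 1
  refine sum_congr rfl fun d _ => ?_
  congr 1
  have h1 : (d : ℝ) * x = (d : ℝ) * Int.fract x + (((d : ℤ) * ⌊x⌋ : ℤ) : ℝ) := by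
    have := Int.fract_add_floor x
    push_cast
    rw [← mul_add, this]
  rw [h1, ls_ee_add, ls_ee_int, mul_one]

lemma continuous_ee : Continuous ee := by
  unfold ee
  fun_prop

lemma continuous_phi (b : ℕ) (w : ℕ → ℂ) : Continuous (phi b w) := by
  unfold phi
  apply Continuous.norm
  apply continuous_finsetSum
  intro d _
  exact continuous_const.mul (continuous_ee.comp (continuous_const.mul continuous_id))

/-- a sum of unit vectors which are not all equal -/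
lemma lt_b {b : ℕ} {z : ℕ → ℂ} (hz : ∀ d, ‖z d‖ = 1) {d : ℕ} (hd : d < b) (h : z d ≠ z 0) :
    ‖∑ i ∈ range b, z i‖ < b := by
  have hd0 : d ≠ 0 := by rintro rfl; exact h rfl
  have h0 : (0 : ℕ) ∈ range b := mem_range.2 (by omega)
  have hd1 : d ∈ (range b).erase 0 := mem_erase.2 ⟨hd0, mem_range.2 hd⟩
  rw [← add_sum_erase _ _ h0, ← add_sum_erase _ _ hd1, ← add_assoc]
  have h1 : ‖z 0 + z d‖ < 2 := by
    have h2 := parallelogram_law_with_norm ℝ (z 0) (z d)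
    rw [hz, hz] at h2
    have h3 : 0 < ‖z 0 - z d‖ := norm_pos_iff.2 (sub_ne_zero.2 (Ne.symm h))
    have h4 : 0 ≤ ‖z 0 + z d‖ := norm_nonneg _
    by_contra hcon
    push Not at hcon
    nlinarith
  have h2 : ‖∑ i ∈ ((range b).erase 0).erase d, z i‖ ≤ (b : ℝ) - 2 := by
    refine (norm_sum_le _ _).trans ?_
    simp only [hz, sum_const, nsmul_eq_mul, mul_one]
    rw [card_erase_of_mem hd1, card_erase_of_mem h0, card_range]
    rw [Nat.sub_sub, Nat.cast_sub (by omega)]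
    norm_num
  have := norm_add_le (z 0 + z d) (∑ i ∈ ((range b).erase 0).erase d, z i)
  linarith

/-- three consecutive digits -/
lemma three {b : ℕ} (hb : 2 ≤ b) (w : ℕ → ℂ) (hw : ∀ d, ‖w d‖ = 1)
    (hs : ∀ ζ : ℂ, ζ ^ ((b - 1) ^ 2) = 1 → ∃ d < b, w d ≠ w 0 * ζ ^ d) :
    ∃ ρ : ℝ, 0 ≤ ρ ∧ ρ < 1 ∧ ∀ x y z : ℝ, (b : ℝ) * z - ((b : ℝ) ^ 2 + 1) * y + b * x = 0 →
      phi b w x * phi b w y * phi b w z ≤ ρ * (b : ℝ) ^ 3 := by
  have hbR : (2 : ℝ) ≤ b := by exact_mod_cast hb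
  have hb0 : (0 : ℝ) < b := by linarith
  set K : Set (ℝ × ℝ × ℝ) := (Set.Icc 0 1 ×ˢ Set.Icc 0 1 ×ˢ Set.Icc 0 1) ∩
    {p | ee ((b : ℝ) * p.2.2 - ((b : ℝ) ^ 2 + 1) * p.2.1 + b * p.1) = 1} with hK
  have hKc : IsCompact K := by
    apply IsCompact.inter_right
    · exact isCompact_Icc.prod (isCompact_Icc.prod isCompact_Icc)
    · apply isClosed_eq _ continuous_const
      apply continuous_ee.comp
      fun_prop
  have hKn : K.Nonempty := ⟨(0, 0, 0), by
    rw [hK]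
    refine ⟨⟨by simp, by simp, by simp⟩, ?_⟩
    show ee _ = 1
    simp [ls_ee_zero]⟩
  have hF : Continuous (fun p : ℝ × ℝ × ℝ => phi b w p.1 * phi b w p.2.1 * phi b w p.2.2) :=
    (((continuous_phi b w).comp continuous_fst).mul ((continuous_phi b w).comp (continuous_fst.comp continuous_snd))).mul
      ((continuous_phi b w).comp (continuous_snd.comp continuous_snd))
  obtain ⟨p, hpK, hp⟩ := hKc.exists_isMaxOn hKn hF.continuousOn
  have hlt : phi b w p.1 * phi b w p.2.1 * phi b w p.2.2 < (b : ℝ) ^ 3 := by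
    by_contra hcon
    push Not at hcon
    have k1 := phi_le hw (b := b) p.1
    have k2 := phi_le hw (b := b) p.2.1
    have k3 := phi_le hw (b := b) p.2.2
    have n1 := phi_nonneg b w p.1
    have n2 := phi_nonneg b w p.2.1
    have n3 := phi_nonneg b w p.2.2
    have hb3 : (b : ℝ) ^ 3 = b * b * b := by ring
    have e3 : phi b w p.2.2 = b := by
      by_contra hne
      have hl : phi b w p.2.2 < b := lt_of_le_of_ne k3 hne
      have h1 : phi b w p.1 * phi b w p.2.1 ≤ b * b := mul_le_mul k1 k2 n2 hb0.le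
      have h2 : phi b w p.1 * phi b w p.2.1 * phi b w p.2.2 ≤ b * b * phi b w p.2.2 :=
        mul_le_mul_of_nonneg_right h1 n3
      have h3 : b * b * phi b w p.2.2 < b * b * b := mul_lt_mul_of_pos_left hl (by positivity)
      linarith
    have e2 : phi b w p.2.1 = b := by
      by_contra hne
      have hl : phi b w p.2.1 < b := lt_of_le_of_ne k2 hne
      have h1 : phi b w p.1 * phi b w p.2.1 ≤ b * phi b w p.2.1 := mul_le_mul_of_nonneg_right k1 n2
      have h2 : b * phi b w p.2.1 < b * b := mul_lt_mul_of_pos_left hl hb0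
      have h3 : phi b w p.1 * phi b w p.2.1 * phi b w p.2.2 ≤ (b * phi b w p.2.1) * b := mul_le_mul h1 k3 n3 (by positivity)
      nlinarith
    have e1 : phi b w p.1 = b := by
      by_contra hne
      have hl : phi b w p.1 < b := lt_of_le_of_ne k1 hne
      rw [e2, e3] at hcon
      have : phi b w p.1 * b * b < b * b * b := by
        apply mul_lt_mul_of_pos_right _ hb0
        exact mul_lt_mul_of_pos_right hl hb0
      linarith
    have key : ∀ x : ℝ, phi b w x = b → ∀ d < b, w d * ee x ^ d = w 0 := by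
      intro x hx d hd
      by_contra hne
      have h1 := lt_b (b := b) (z := fun d => w d * ee ((d : ℝ) * x)) (fun d => by rw [norm_mul, hw, ls_norm_ee, mul_one])
        hd (by
          simp only [Nat.cast_zero, zero_mul, ls_ee_zero, mul_one]
          rw [ls_ee_nat_mul]
          exact hne)
      unfold phi at hx
      linarith
    have hw0 : w 0 ≠ 0 := by
      intro h
      have := hw 0
      rw [h, norm_zero] at this
      norm_num at this
    have hw1 : w 1 ≠ 0 := by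
      intro h
      have := hw 1
      rw [h, norm_zero] at this
      norm_num at this
    have q1 := key _ e1 1 (by omega)
    have q2 := key _ e2 1 (by omega)
    have q3 := key _ e3 1 (by omega)
    rw [pow_one] at q1 q2 q3
    have r2 : ee p.2.1 = ee p.1 := mul_left_cancel₀ hw1 (q2.trans q1.symm)
    have r3 : ee p.2.2 = ee p.1 := mul_left_cancel₀ hw1 (q3.trans q1.symm)
    have hrel : ee ((b : ℝ) * p.2.2 - ((b : ℝ) ^ 2 + 1) * p.2.1 + b * p.1) = 1 := hpK.2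
    have h1 : ee ((b : ℝ) * p.2.2 + b * p.1) = ee (((b : ℝ) ^ 2 + 1) * p.2.1) := by
      have : (b : ℝ) * p.2.2 + b * p.1 = ((b : ℝ) * p.2.2 - ((b : ℝ) ^ 2 + 1) * p.2.1 + b * p.1) +
        ((b : ℝ) ^ 2 + 1) * p.2.1 := by ring
      rw [this, ls_ee_add, hrel, one_mul]
    have h2 : ee p.1 ^ (2 * b) = ee p.1 ^ (b ^ 2 + 1) := by
      have e4 : ((b : ℝ) ^ 2 + 1) * p.2.1 = ((b ^ 2 + 1 : ℕ) : ℝ) * p.2.1 := by push_cast; ring
      rw [ls_ee_add, ls_ee_nat_mul, ls_ee_nat_mul, e4, ls_ee_nat_mul, r2, r3] at h1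
      rw [two_mul, pow_add]
      exact h1
    have h3 : b ^ 2 + 1 = 2 * b + (b - 1) ^ 2 := by
      obtain ⟨k, rfl⟩ : ∃ k, b = k + 1 := ⟨b - 1, by omega⟩
      rw [Nat.add_sub_cancel]
      ring
    rw [h3, pow_add] at h2
    have h4 : ee p.1 ^ ((b - 1) ^ 2) = 1 := (mul_eq_left₀ (pow_ne_zero _ (ls_ee_ne_zero _))).1 h2.symm
    obtain ⟨d, hd, hne⟩ := hs (ee p.1)⁻¹ (by rw [inv_pow, h4, inv_one])
    apply hne
    have h5 := key _ e1 d hd
    rw [inv_pow, ← h5, mul_assoc, mul_inv_cancel₀ (pow_ne_zero _ (ls_ee_ne_zero _)), mul_one]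
  refine ⟨(phi b w p.1 * phi b w p.2.1 * phi b w p.2.2) / (b : ℝ) ^ 3, ?_, ?_, ?_⟩
  · have n1 := phi_nonneg b w p.1
    have n2 := phi_nonneg b w p.2.1
    have n3 := phi_nonneg b w p.2.2
    positivity
  · rw [div_lt_one (by positivity)]
    exact hlt
  · intro x y z hxyz
    rw [div_mul_cancel₀ _ (by positivity)]
    have hmem : (Int.fract x, Int.fract y, Int.fract z) ∈ K := by
      rw [hK]
      refine ⟨⟨⟨Int.fract_nonneg _, (Int.fract_lt_one _).le⟩, ⟨Int.fract_nonneg _, (Int.fract_lt_one _).le⟩,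
        ⟨Int.fract_nonneg _, (Int.fract_lt_one _).le⟩⟩, ?_⟩
      show ee _ = 1
      have h1 : (b : ℝ) * Int.fract z - ((b : ℝ) ^ 2 + 1) * Int.fract y + b * Int.fract x =
          ((-((b : ℤ) * ⌊z⌋ - ((b : ℤ) ^ 2 + 1) * ⌊y⌋ + b * ⌊x⌋) : ℤ) : ℝ) := by
        have a1 := Int.fract_add_floor x
        have a2 := Int.fract_add_floor y
        have a3 := Int.fract_add_floor z
        push_cast
        rw [← a1, ← a2, ← a3] at hxyz
        linarith
      simp only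
      rw [h1, ls_ee_int]
    have h1 := hp hmem
    simp only [Set.mem_ofPred_eq] at h1
    rw [phi_fract, phi_fract, phi_fract] at h1
    exact h1

/-- grouping by three -/
lemma prod_three {b : ℕ} {ρ : ℝ} (hρ : 0 ≤ ρ) (f : ℕ → ℝ) (h0 : ∀ c, 0 ≤ f c) (h1 : ∀ c, f c ≤ b) (L : ℕ)
    (h3 : ∀ c, c + 2 < L → f c * f (c + 1) * f (c + 2) ≤ ρ * (b : ℝ) ^ 3) :
    ∏ c ∈ range L, f c ≤ (b : ℝ) ^ L * ρ ^ (L / 3) := by
  have h4 : ∀ m, 3 * m ≤ L → ∏ c ∈ range (3 * m), f c ≤ (ρ * (b : ℝ) ^ 3) ^ m := by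
    intro m
    induction m with
    | zero => intro _; simp
    | succ m ih =>
      intro hm
      rw [show 3 * (m + 1) = 3 * m + 1 + 1 + 1 by ring, prod_range_succ, prod_range_succ, prod_range_succ, pow_succ]
      have h5 := ih (by omega)
      have h6 := h3 (3 * m) (by omega)
      calc (∏ c ∈ range (3 * m), f c) * f (3 * m) * f (3 * m + 1) * f (3 * m + 1 + 1) =
          (∏ c ∈ range (3 * m), f c) * (f (3 * m) * f (3 * m + 1) * f (3 * m + 2)) := by ring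
        _ ≤ (ρ * (b : ℝ) ^ 3) ^ m * (ρ * (b : ℝ) ^ 3) :=
          mul_le_mul h5 h6 (mul_nonneg (mul_nonneg (h0 _) (h0 _)) (h0 _)) (by positivity)
  have h5 := h4 (L / 3) (Nat.mul_div_le L 3)
  have h6 : L = 3 * (L / 3) + L % 3 := (Nat.div_add_mod L 3).symm
  have h7 : ∏ c ∈ range L, f c = (∏ c ∈ range (3 * (L / 3)), f c) * ∏ i ∈ range (L % 3), f (3 * (L / 3) + i) := by
    conv_lhs => rw [h6]
    rw [prod_range_add]
  have h8 : ∏ i ∈ range (L % 3), f (3 * (L / 3) + i) ≤ (b : ℝ) ^ (L % 3) := by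
    calc ∏ i ∈ range (L % 3), f (3 * (L / 3) + i) ≤ ∏ i ∈ range (L % 3), (b : ℝ) :=
          prod_le_prod (fun _ _ => h0 _) (fun _ _ => h1 _)
      _ = _ := by simp
  rw [h7]
  calc (∏ c ∈ range (3 * (L / 3)), f c) * ∏ i ∈ range (L % 3), f (3 * (L / 3) + i) ≤
      (ρ * (b : ℝ) ^ 3) ^ (L / 3) * (b : ℝ) ^ (L % 3) :=
        mul_le_mul h5 h8 (prod_nonneg fun _ _ => h0 _) (by positivity)
    _ = (b : ℝ) ^ (3 * (L / 3) + L % 3) * ρ ^ (L / 3) := by
        rw [mul_pow, pow_add, pow_mul (b : ℝ) 3]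
        ring
    _ = _ := by rw [← h6]

/-- the exponential sum is a product -/
lemma norm_tw (b L : ℕ) (w : ℕ → ℂ) (α : ℝ) :
    ‖∑ m : Fin L → Fin b × Fin 1, (∏ c : Fin L, w ((m c).1 : ℕ)) * ee (α * (pv b b 1 L m : ℝ))‖ =
      ∏ c ∈ range L, phi b w (fr b L c * α) := by
  have h1 : ∀ m : Fin L → Fin b × Fin 1, (∏ c : Fin L, w ((m c).1 : ℕ)) * ee (α * (pv b b 1 L m : ℝ)) =
      ee (α * ((b : ℝ) ^ (2 * L + 2) + (b : ℝ) ^ (L + 1) + 1)) *
        ∏ c : Fin L, (w ((m c).1 : ℕ) * ee ((((m c).1 : ℕ) : ℝ) * (fr b L c * α))) := by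
    intro m
    rw [prod_mul_distrib]
    have h2 : ∏ c : Fin L, ee ((((m c).1 : ℕ) : ℝ) * (fr b L c * α)) =
        ee (∑ c : Fin L, (((m c).1 : ℕ) : ℝ) * (fr b L c * α)) := by
      have : ∀ s' : Finset (Fin L), ∏ c ∈ s', ee ((((m c).1 : ℕ) : ℝ) * (fr b L c * α)) =
          ee (∑ c ∈ s', (((m c).1 : ℕ) : ℝ) * (fr b L c * α)) := by
        intro s'
        induction s' using Finset.induction_on with
        | empty => simp [ls_ee_zero]
        | insert a s' ha ih => rw [prod_insert ha, sum_insert ha, ls_ee_add, ih]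
      exact this univ
    rw [h2]
    have h3 : ee (α * (pv b b 1 L m : ℝ)) = ee (α * ((b : ℝ) ^ (2 * L + 2) + (b : ℝ) ^ (L + 1) + 1)) *
        ee (∑ c : Fin L, (((m c).1 : ℕ) : ℝ) * (fr b L c * α)) := by
      rw [← ls_ee_add]
      congr 1
      unfold pv
      push_cast
      rw [mul_add, mul_sum]
      congr 1
      refine sum_congr rfl fun c _ => ?_
      have : (((m c).2 : ℕ) : ℝ) = 0 := by
        have : ((m c).2 : ℕ) = 0 := by
          have := (m c).2.isLt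
          omega
        rw [this]; simp
      rw [this]
      ring
    rw [h3]
    ring
  rw [sum_congr rfl (fun m _ => h1 m), ← mul_sum, norm_mul, ls_norm_ee, one_mul]
  have h3 : ∑ m : Fin L → Fin b × Fin 1, ∏ c : Fin L, (w ((m c).1 : ℕ) * ee ((((m c).1 : ℕ) : ℝ) * (fr b L c * α))) =
      ∏ c : Fin L, ∑ x : Fin b × Fin 1, (w (x.1 : ℕ) * ee (((x.1 : ℕ) : ℝ) * (fr b L c * α))) := by
    rw [Finset.prod_univ_sum, Fintype.piFinset_univ]
  rw [h3, norm_prod]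
  have h4 : ∀ c : Fin L, ‖∑ x : Fin b × Fin 1, (w (x.1 : ℕ) * ee (((x.1 : ℕ) : ℝ) * (fr b L c * α)))‖ =
      phi b w (fr b L (c : ℕ) * α) := by
    intro c
    unfold phi
    congr 1
    rw [Fintype.sum_prod_type]
    simp only [univ_unique, sum_const, card_singleton, one_smul]
    rw [Fin.sum_univ_eq_sum_range (fun i : ℕ => w i * ee ((i : ℝ) * (fr b L c * α))) b]
  rw [prod_congr rfl (fun c _ => h4 c)]
  rw [Fin.prod_univ_eq_prod_range (fun j => phi b w (fr b L j * α)) L]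

lemma fr_rel {b L c : ℕ} (hc : c + 2 ≤ L) :
    (b : ℝ) * (fr b L (c + 2) : ℝ) - ((b : ℝ) ^ 2 + 1) * (fr b L (c + 1) : ℝ) + b * (fr b L c : ℝ) = 0 := by
  obtain ⟨k, rfl⟩ : ∃ k, L = c + 2 + k := ⟨L - (c + 2), by omega⟩
  unfold fr
  rw [show c + 2 + k - (c + 2) = k by omega, show c + 2 + k - (c + 1) = k + 1 by omega,
    show c + 2 + k - c = k + 2 by omega]
  push_cast
  ring

/-- the bound for the exponential sums -/
lemma tw_bound {b : ℕ} (hb : 2 ≤ b) (w : ℕ → ℂ) (hw : ∀ d, ‖w d‖ = 1)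
    (hs : ∀ ζ : ℂ, ζ ^ ((b - 1) ^ 2) = 1 → ∃ d < b, w d ≠ w 0 * ζ ^ d) :
    ∃ ρ : ℝ, 0 ≤ ρ ∧ ρ < 1 ∧ ∀ (L : ℕ) (α : ℝ),
      ‖∑ m : Fin L → Fin b × Fin 1, (∏ c : Fin L, w ((m c).1 : ℕ)) * ee (α * (pv b b 1 L m : ℝ))‖ ≤
        (b : ℝ) ^ L * ρ ^ (L / 3) := by
  obtain ⟨ρ, h0, h1, h⟩ := three hb w hw hs
  refine ⟨ρ, h0, h1, fun L α => ?_⟩
  rw [norm_tw]
  apply prod_three h0 _ (fun c => phi_nonneg _ _ _) (fun c => phi_le hw _)
  intro c hc
  apply h
  have := fr_rel (b := b) (L := L) (c := c) (by omega)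
  calc (b : ℝ) * (fr b L (c + 2) * α) - ((b : ℝ) ^ 2 + 1) * (fr b L (c + 1) * α) + b * (fr b L c * α) =
      ((b : ℝ) * (fr b L (c + 2) : ℝ) - ((b : ℝ) ^ 2 + 1) * (fr b L (c + 1) : ℝ) + b * (fr b L c : ℝ)) * α := by ring
    _ = 0 := by rw [this, zero_mul]

variable {G : Type} [AddCommGroup G]

/-- no nontrivial character is, up to a constant factor, a power `ζ ^ d` on the digits with `ζ ^ ((b-1)^2) = 1` -/
def Spr (b : ℕ) (g : ℕ → G) : Prop :=
  ∀ χ : AddChar G ℂ, χ ≠ 0 → ∀ ζ : ℂ, ζ ^ ((b - 1) ^ 2) = 1 → ∃ d < b, χ (g d) ≠ χ (g 0) * ζ ^ d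

lemma map_sum_prod {ι : Type} (χ : AddChar G ℂ) (s : Finset ι) (v : ι → G) : χ (∑ i ∈ s, v i) = ∏ i ∈ s, χ (v i) := by
  classical
  induction s using Finset.induction_on with
  | empty => simp
  | insert a s ha ih => rw [sum_insert ha, prod_insert ha, AddChar.map_add_eq_mul, ih]

variable [Fintype G] [DecidableEq G]

omit [DecidableEq G] in
lemma tw_unif {b : ℕ} (hb : 2 ≤ b) (g : ℕ → G) (hg : Spr b g) : ∃ ρ : ℝ, 0 ≤ ρ ∧ ρ < 1 ∧
    ∀ χ : AddChar G ℂ, χ ≠ 0 → ∀ (L : ℕ) (α : ℝ),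
      ‖∑ m : Fin L → Fin b × Fin 1, (∏ c : Fin L, χ (g ((m c).1 : ℕ))) * ee (α * (pv b b 1 L m : ℝ))‖ ≤
        (b : ℝ) ^ L * ρ ^ (L / 3) := by
  classical
  have h1 : ∀ χ : AddChar G ℂ, ∃ ρ : ℝ, 0 ≤ ρ ∧ ρ < 1 ∧ (χ ≠ 0 → ∀ (L : ℕ) (α : ℝ),
      ‖∑ m : Fin L → Fin b × Fin 1, (∏ c : Fin L, χ (g ((m c).1 : ℕ))) * ee (α * (pv b b 1 L m : ℝ))‖ ≤
        (b : ℝ) ^ L * ρ ^ (L / 3)) := by
    intro χ
    by_cases hχ : χ = 0
    · exact ⟨0, le_rfl, one_pos, fun h => absurd hχ h⟩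
    · obtain ⟨ρ, a1, a2, a3⟩ := tw_bound hb (fun d => χ (g d)) (fun d => AddChar.norm_apply χ _) (hg χ hχ)
      exact ⟨ρ, a1, a2, fun _ => a3⟩
  choose r hr0 hr1 hr using h1
  obtain ⟨χ₀, -, hmax⟩ := exists_max_image (univ : Finset (AddChar G ℂ)) r ⟨0, mem_univ _⟩
  refine ⟨r χ₀, hr0 _, hr1 _, fun χ hχ L α => (hr χ hχ L α).trans ?_⟩
  apply mul_le_mul_of_nonneg_left _ (by positivity)
  exact pow_le_pow_left₀ (hr0 _) (hmax χ (mem_univ _)) _

/-- **equidistribution in residue classes** -/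
theorem tw_class {b : ℕ} (hb : 2 ≤ b) (g : ℕ → G) (hg : Spr b g) : ∃ ρ : ℝ, 0 ≤ ρ ∧ ρ < 1 ∧
    ∀ (L q h : ℕ), q.Coprime (2 * b) → ∀ g₁ : G,
    |((((univ : Finset (Fin L → Fin b × Fin 1)).filter (fun m => ∑ c, g ((m c).1 : ℕ) = g₁)).filter
      (fun m => pv b b 1 L m ≡ h [MOD q])).card : ℝ) - ((b : ℝ) ^ L / Fintype.card G) / q| ≤
      er b L q + (b : ℝ) ^ L * ρ ^ (L / 3) := by
  classical
  obtain ⟨ρ, h0, h1, hρ⟩ := tw_unif hb g hg
  refine ⟨ρ, h0, h1, fun L q h hq g₁ => ?_⟩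
  have hq0 : 0 < q := coprime_pos hq
  have hqr : (0 : ℝ) < q := by exact_mod_cast hq0
  have hqc : (q : ℂ) ≠ 0 := by exact_mod_cast hq0.ne'
  have hG : (0 : ℝ) < Fintype.card G := by exact_mod_cast Fintype.card_pos
  have hG1 : (1 : ℝ) ≤ Fintype.card G := by exact_mod_cast Fintype.card_pos
  set R := (univ : Finset (Fin L → Fin b × Fin 1)).filter (fun m => pv b b 1 L m ≡ h [MOD q]) with hR
  set N := (((univ : Finset (Fin L → Fin b × Fin 1)).filter (fun m => ∑ c, g ((m c).1 : ℕ) = g₁)).filter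
      (fun m => pv b b 1 L m ≡ h [MOD q])).card with hN
  have hNR : N = (R.filter (fun m => ∑ c, g ((m c).1 : ℕ) = g₁)).card := by
    rw [hN, hR, filter_filter, filter_filter]
    congr 1
    apply filter_congr
    intro m _
    exact and_comm
  have e1 : (Fintype.card G : ℂ) * N = ∑ χ : AddChar G ℂ, χ (-g₁) * ∑ m ∈ R, ∏ c : Fin L, χ (g ((m c).1 : ℕ)) := by
    have e2 : ∀ m : Fin L → Fin b × Fin 1, (if ∑ c, g ((m c).1 : ℕ) = g₁ then (Fintype.card G : ℂ) else 0) =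
        ∑ χ : AddChar G ℂ, χ (∑ c, g ((m c).1 : ℕ) - g₁) := by
      intro m
      rw [AddChar.sum_apply_eq_ite]
      simp only [sub_eq_zero]
    rw [hNR, card_filter]
    push_cast
    rw [mul_sum]
    simp only [mul_sum]
    rw [sum_comm]
    refine sum_congr rfl fun m _ => ?_
    have e3 : (Fintype.card G : ℂ) * (if ∑ c, g ((m c).1 : ℕ) = g₁ then (1 : ℂ) else 0) =
        if ∑ c, g ((m c).1 : ℕ) = g₁ then (Fintype.card G : ℂ) else 0 := by
      split_ifs <;> simp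
    rw [e3, e2]
    refine sum_congr rfl fun χ _ => ?_
    rw [sub_eq_add_neg, AddChar.map_add_eq_mul, map_sum_prod]
    ring
  -- the trivial character
  have e4 : ((R.card : ℝ)) = cnth b b 1 L q h := rfl
  have e5 := cnth_bound (s := b) (t := 1) (by omega) one_pos b L q h hq
  have e6 : ((b : ℝ) * (1 : ℕ)) ^ L = (b : ℝ) ^ L := by simp
  rw [e6] at e5
  have e7 : |(R.card : ℝ) - (b : ℝ) ^ L / q| ≤ er b L q := by
    rw [e4]
    exact e5
  -- the other characters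
  have e8 : ∀ χ : AddChar G ℂ, χ ≠ 0 → ‖∑ m ∈ R, ∏ c : Fin L, χ (g ((m c).1 : ℕ))‖ ≤ (b : ℝ) ^ L * ρ ^ (L / 3) := by
    intro χ hχ
    have h2 : ∑ m ∈ R, ∏ c : Fin L, χ (g ((m c).1 : ℕ)) = (1 / (q : ℂ)) * ∑ a ∈ range q,
        ee (-((a : ℝ) * h / q)) * ∑ m : Fin L → Fin b × Fin 1, (∏ c : Fin L, χ (g ((m c).1 : ℕ))) *
          ee ((a : ℝ) / q * (pv b b 1 L m : ℝ)) := by
      have h3 : ∑ m ∈ R, ∏ c : Fin L, χ (g ((m c).1 : ℕ)) = ∑ m : Fin L → Fin b × Fin 1,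
          (1 / (q : ℂ)) * ((∏ c : Fin L, χ (g ((m c).1 : ℕ))) *
            ∑ a ∈ range q, ee ((a : ℝ) * ((((pv b b 1 L m : ℕ) : ℝ) - ((h : ℕ) : ℝ)) / q))) := by
        rw [hR, sum_filter]
        refine sum_congr rfl fun m _ => ?_
        rw [orth hq0 (pv b b 1 L m) h]
        by_cases hm : pv b b 1 L m ≡ h [MOD q]
        · rw [if_pos hm, if_pos hm]
          field_simp
        · rw [if_neg hm, if_neg hm]
          simp
      rw [h3, ← mul_sum]
      congr 1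
      simp only [mul_sum]
      rw [sum_comm]
      refine sum_congr rfl fun a _ => ?_
      refine sum_congr rfl fun m _ => ?_
      have h4 : ee ((a : ℝ) * ((((pv b b 1 L m : ℕ) : ℝ) - ((h : ℕ) : ℝ)) / q)) =
          ee (-((a : ℝ) * h / q)) * ee ((a : ℝ) / q * (pv b b 1 L m : ℝ)) := by
        rw [← ls_ee_add]
        congr 1
        field_simp
        ring
      rw [h4]
      ring
    rw [h2, norm_mul]
    have h6 : ‖(1 / (q : ℂ))‖ = 1 / (q : ℝ) := by simp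
    rw [h6]
    calc 1 / (q : ℝ) * ‖∑ a ∈ range q, ee (-((a : ℝ) * h / q)) * ∑ m : Fin L → Fin b × Fin 1,
          (∏ c : Fin L, χ (g ((m c).1 : ℕ))) * ee ((a : ℝ) / q * (pv b b 1 L m : ℝ))‖
        ≤ 1 / (q : ℝ) * ∑ a ∈ range q, (b : ℝ) ^ L * ρ ^ (L / 3) := by
          apply mul_le_mul_of_nonneg_left _ (by positivity)
          refine (norm_sum_le _ _).trans (sum_le_sum fun a _ => ?_)
          rw [norm_mul, ls_norm_ee, one_mul]
          exact hρ χ hχ L _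
      _ = (b : ℝ) ^ L * ρ ^ (L / 3) := by
          rw [sum_const, card_range, nsmul_eq_mul]
          field_simp
  have e9 : ‖(Fintype.card G : ℂ) * N - (R.card : ℂ)‖ ≤ Fintype.card G * ((b : ℝ) ^ L * ρ ^ (L / 3)) := by
    rw [e1, ← add_sum_erase univ _ (mem_univ (0 : AddChar G ℂ))]
    have h2 : (0 : AddChar G ℂ) (-g₁) * ∑ m ∈ R, ∏ c : Fin L, (0 : AddChar G ℂ) (g ((m c).1 : ℕ)) = (R.card : ℂ) := by
      simp
    rw [h2, add_sub_cancel_left]
    refine (norm_sum_le _ _).trans ?_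
    have h3 : ∀ χ ∈ univ.erase (0 : AddChar G ℂ), ‖χ (-g₁) * ∑ m ∈ R, ∏ c : Fin L, χ (g ((m c).1 : ℕ))‖ ≤
        (b : ℝ) ^ L * ρ ^ (L / 3) := by
      intro χ hχ
      rw [norm_mul, AddChar.norm_apply, one_mul]
      exact e8 χ (ne_of_mem_erase hχ)
    refine (sum_le_card_nsmul _ _ _ h3).trans ?_
    rw [nsmul_eq_mul]
    apply mul_le_mul_of_nonneg_right _ (by positivity)
    have e6 : (univ.erase (0 : AddChar G ℂ)).card ≤ Fintype.card G := by
      refine card_erase_le.trans ?_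
      rw [card_univ, AddChar.card_eq]
    exact_mod_cast e6
  have e10 : |(Fintype.card G : ℝ) * N - R.card| ≤ Fintype.card G * ((b : ℝ) ^ L * ρ ^ (L / 3)) := by
    have h2 : ((Fintype.card G : ℂ) * N - (R.card : ℂ)) = (((Fintype.card G : ℝ) * N - R.card : ℝ) : ℂ) := by
      push_cast; ring
    rw [h2, Complex.norm_real, Real.norm_eq_abs] at e9
    exact e9
  have her := er_nonneg b L q
  have e11 : |(Fintype.card G : ℝ) * N - (b : ℝ) ^ L / q| ≤
      Fintype.card G * (er b L q + (b : ℝ) ^ L * ρ ^ (L / 3)) := by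
    refine (abs_sub_le _ (R.card : ℝ) _).trans ?_
    have : er b L q ≤ Fintype.card G * er b L q := le_mul_of_one_le_left her hG1
    linarith
  have e12 : (Fintype.card G : ℝ) * N - (b : ℝ) ^ L / q =
      Fintype.card G * ((N : ℝ) - (b : ℝ) ^ L / Fintype.card G / q) := by
    field_simp
  rw [e12, abs_mul, abs_of_pos hG] at e11
  exact le_of_mul_le_mul_left e11 hG

end Pool.Agent.X220.PD
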